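import Pool.Agent.Q225.IC.Stm

/-! # MP_ea601a_lc: one-rectangles (RECT) -/

open Finset

namespace Pool.Agent.Q225.IC

/-- number of tables which vanish on `Γ` and not at `v` -/
theorem card_zero_set {P : Type} [Fintype P] [DecidableEq P] {r : ℕ} (Γ : Finset P) (v : P) (hv : v ∉ Γ) :
    (univ.filter (fun z : Tb P r => (∀ u ∈ Γ, z u = 0) ∧ z v ≠ 0)).card =
      r * (r + 1) ^ (Fintype.card P - 1 - Γ.card) := by
  have h1 : (univ.filter (fun z : Tb P r => (∀ u ∈ Γ, z u = 0) ∧ z v ≠ 0)) =
      Fintype.piFinset (fun p : P => if p ∈ Γ then ({0} : Finset (Fin (r+1))) else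
        if p = v then univ.erase 0 else univ) := by
    ext z
    simp only [mem_filter, mem_univ, true_and, Fintype.mem_piFinset]
    constructor
    · rintro ⟨h1, h2⟩ p
      by_cases hp : p ∈ Γ
      · rw [if_pos hp]; simpa using h1 p hp
      · rw [if_neg hp]
        by_cases hpv : p = v
        · rw [if_pos hpv, hpv]; simpa using h2
        · rw [if_neg hpv]; simp
    · intro h
      constructor
      · intro u hu
        have := h u
        rw [if_pos hu] at this; simpa using this
      · have := h v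
        rw [if_neg hv, if_pos rfl] at this
        simpa using this
  rw [h1, Fintype.card_piFinset]
  have h2 : ∀ p : P, (if p ∈ Γ then ({0} : Finset (Fin (r+1))) else if p = v then univ.erase 0 else univ).card =
      (if p ∈ Γ then 1 else if p = v then r else r + 1) := by
    intro p
    split
    · simp
    · split
      · rw [card_erase_of_mem (mem_univ _)]; simp
      · simp
  rw [prod_congr rfl (fun p _ => h2 p)]
  rw [← prod_sdiff (subset_univ Γ)]
  have h3 : ∏ x ∈ Γ, (if x ∈ Γ then 1 else if x = v then r else r + 1) = 1 :=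
    prod_eq_one (fun x hx => by rw [if_pos hx])
  rw [h3, mul_one]
  have h4 : v ∈ univ \ Γ := by simp [hv]
  rw [← mul_prod_erase _ _ h4, if_neg hv, if_pos rfl]
  congr 1
  have h5 : ∏ x ∈ (univ \ Γ).erase v, (if x ∈ Γ then 1 else if x = v then r else r + 1) =
      ∏ x ∈ (univ \ Γ).erase v, (r + 1) := by
    apply prod_congr rfl
    intro x hx
    rw [mem_erase, mem_sdiff] at hx
    rw [if_neg hx.2.2, if_neg hx.1]
  rw [h5, prod_const, card_erase_of_mem h4, card_sdiff_of_subset (subset_univ Γ), card_univ]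
  congr 1
  omega

theorem rect_num (n r d : ℕ) (hr : 1 ≤ r) (hd : 2 ≤ d) (hn : d + 1 ≤ n) :
    (r + 1) * (d * (r * (r + 1) ^ (n - 1 - d))) ≤ 2 * (r * (r + 1) ^ (n - 2)) := by
  have h1 : d ≤ 2 * (r + 1) ^ (d - 2) := by
    have h2 : d - 1 < 2 ^ (d - 1) := Nat.lt_two_pow_self
    have h3 : 2 ^ (d - 1) = 2 * 2 ^ (d - 2) := by
      rw [← pow_succ']; congr 1; omega
    have h4 : 2 ^ (d - 2) ≤ (r + 1) ^ (d - 2) := Nat.pow_le_pow_left (by omega) _
    omega
  have h5 : (r + 1) ^ (n - 2) = (r + 1) * (r + 1) ^ (n - 1 - d) * (r + 1) ^ (d - 2) := by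
    rw [← pow_succ', ← pow_add]; congr 1; omega
  rw [h5]
  calc (r + 1) * (d * (r * (r + 1) ^ (n - 1 - d))) = d * ((r + 1) * (r * (r + 1) ^ (n - 1 - d))) := by ring
    _ ≤ (2 * (r + 1) ^ (d - 2)) * ((r + 1) * (r * (r + 1) ^ (n - 1 - d))) := Nat.mul_le_mul_right _ h1
    _ = 2 * (r * ((r + 1) * (r + 1) ^ (n - 1 - d) * (r + 1) ^ (d - 2))) := by ring

open Classical in
theorem t_RECT : S_RECT := by
  intro P _ _ r A B hr hn hAB
  set n := Fintype.card P with hnn
  -- the pairs
  let E : P → P → Prop := fun s t => ∃ x, A x ∧ ((x.2.1 = s ∧ x.2.2 = t) ∨ (x.2.1 = t ∧ x.2.2 = s))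
  have Esymm : ∀ s t, E s t → E t s := by
    rintro s t ⟨x, hx, h | h⟩
    · exact ⟨x, hx, Or.inr h⟩
    · exact ⟨x, hx, Or.inl h⟩
  have Ecov : ∀ s t, E s t → ∀ y, B y → y.2 s = 0 ∨ y.2 t = 0 := by
    rintro s t ⟨x, hx, h⟩ y hy
    have h1 := hAB x y hx hy
    simp only [FF, decide_eq_true_eq] at h1
    rcases h with ⟨h2, h3⟩ | ⟨h2, h3⟩
    · rw [h2, h3] at h1; exact h1
    · rw [h2, h3] at h1; exact h1.symm
  have Exin : ∀ e w v, A (xin e w v) → E w v := by
    intro e w v h
    refine ⟨_, h, ?_⟩
    unfold xin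
    split
    · right; simp
    · left; simp
  have hne : Nonempty P := Fintype.card_pos_iff.1 (by omega)
  -- neighbourhoods
  let Γ : P → Finset P := fun v => univ.filter (fun w => w ≠ v ∧ E w v)
  have hvΓ : ∀ v, v ∉ Γ v := by intro v h; simp [Γ] at h
  have hΓcard : ∀ v, (Γ v).card + 1 ≤ n := by
    intro v
    have : (Γ v).card < n := by
      rw [hnn, ← card_univ]
      exact card_lt_card ((ssubset_univ_iff).2 (fun h => hvΓ v (h ▸ mem_univ v)))
    omega
  -- the fibre over `v`
  have key : ∃ c : P, ∀ e : Ed, ∀ v : P, (r + 1) * (univ.filter (fun t : P × Tb P r =>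
      ok t.1 v t.2 ∧ t.1 ≠ c ∧ A (xin e t.1 v) ∧ B (bv e, t.2))).card ≤
        if (∀ s t, E s t → s ≠ t → s = c ∨ t = c) then (if v = c then (r + 1) * (r * (r + 1) ^ (n - 2)) else 0)
        else 2 * (r * (r + 1) ^ (n - 2)) := by
    by_cases H : ∃ c, ∀ s t, E s t → s ≠ t → s = c ∨ t = c
    · obtain ⟨c, hc⟩ := H
      refine ⟨c, fun e v => ?_⟩
      rw [if_pos hc]
      by_cases hv : v = c
      · rw [if_pos hv]
        subst hv
        apply Nat.mul_le_mul_left
        -- subset of Γ v × tables
        have hsub : (univ.filter (fun t : P × Tb P r => ok t.1 v t.2 ∧ t.1 ≠ v ∧ A (xin e t.1 v) ∧ B (bv e, t.2))) ⊆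
            (Γ v) ×ˢ (univ.filter (fun z : Tb P r => (∀ u ∈ Γ v, z u = 0) ∧ z v ≠ 0)) := by
          rintro ⟨w, z⟩ h
          simp only [mem_filter, mem_univ, true_and, mem_product] at h ⊢
          obtain ⟨⟨h1, h2, h3⟩, h4, h5, h6⟩ := h
          refine ⟨?_, ?_, h3⟩
          · simp only [Γ, mem_filter, mem_univ, true_and]; exact ⟨h4, Exin _ _ _ h5⟩
          · intro u hu
            simp only [Γ, mem_filter, mem_univ, true_and] at hu
            rcases Ecov u v hu.2 _ h6 with h7 | h7
            · exact h7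
            · exact absurd h7 h3
        refine le_trans (card_le_card hsub) ?_
        rw [card_product, card_zero_set _ _ (hvΓ v)]
        rcases Nat.lt_or_ge (Γ v).card 2 with hd | hd
        · interval_cases hd' : (Γ v).card
          · simp
          · rw [one_mul]; rw [← hnn]; exact le_of_eq (by congr 2)
        · have h7 := rect_num n r (Γ v).card hr hd (hΓcard v)
          rw [← hnn]
          have h8 : 2 * ((Γ v).card * (r * (r + 1) ^ (n - 1 - (Γ v).card))) ≤ 2 * (r * (r + 1) ^ (n - 2)) :=
            le_trans (Nat.mul_le_mul_right _ (by omega)) h7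
          omega
      · rw [if_neg hv]
        have : (univ.filter (fun t : P × Tb P r => ok t.1 v t.2 ∧ t.1 ≠ c ∧ A (xin e t.1 v) ∧ B (bv e, t.2))) = ∅ := by
          rw [filter_eq_empty_iff]
          rintro ⟨w, z⟩ _ ⟨⟨h1, h2, h3⟩, h4, h5, h6⟩
          rcases hc w v (Exin _ _ _ h5) (fun h => h1 h.symm) with h7 | h7
          · exact h4 h7
          · exact hv h7
        rw [this]; simp
    · obtain ⟨c⟩ := hne
      refine ⟨c, fun e v => ?_⟩
      rw [if_neg (fun h => H ⟨c, h⟩)]
      have hsub : (univ.filter (fun t : P × Tb P r => ok t.1 v t.2 ∧ t.1 ≠ c ∧ A (xin e t.1 v) ∧ B (bv e, t.2))) ⊆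
          (Γ v) ×ˢ (univ.filter (fun z : Tb P r => ((∀ u ∈ Γ v, z u = 0) ∧ z v ≠ 0) ∧ B (bv e, z))) := by
        rintro ⟨w, z⟩ h
        simp only [mem_filter, mem_univ, true_and, mem_product] at h ⊢
        obtain ⟨⟨h1, h2, h3⟩, h4, h5, h6⟩ := h
        refine ⟨?_, ⟨?_, h3⟩, h6⟩
        · simp only [Γ, mem_filter, mem_univ, true_and]; exact ⟨fun h => h1 h.symm, Exin _ _ _ h5⟩
        · intro u hu
          simp only [Γ, mem_filter, mem_univ, true_and] at hu
          rcases Ecov u v hu.2 _ h6 with h7 | h7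
          · exact h7
          · exact absurd h7 h3
      refine le_trans (Nat.mul_le_mul_left _ (card_le_card hsub)) ?_
      rw [card_product]
      have hsub2 : (univ.filter (fun z : Tb P r => ((∀ u ∈ Γ v, z u = 0) ∧ z v ≠ 0) ∧ B (bv e, z))) ⊆
          (univ.filter (fun z : Tb P r => (∀ u ∈ Γ v, z u = 0) ∧ z v ≠ 0)) := by
        intro z hz; simp only [mem_filter, mem_univ, true_and] at hz ⊢; exact hz.1
      rcases Nat.lt_or_ge (Γ v).card 2 with hd | hd
      · interval_cases hd' : (Γ v).card
        · simp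
        · obtain ⟨u, hu⟩ := card_eq_one.1 hd'
          rw [one_mul]
          -- another pair
          have H2 : ¬ ∀ s t, E s t → s ≠ t → s = u ∨ t = u := fun h => H ⟨u, h⟩
          push Not at H2
          obtain ⟨s, t, hst, hne2, hsu, htu⟩ := H2
          have hvu : v ≠ u := by
            intro h; apply hvΓ v; rw [hu, h]; simp
          have hvs : v ≠ s := by
            intro h
            have h7 : t ∈ Γ v := by
              simp only [Γ, mem_filter, mem_univ, true_and]
              exact ⟨fun h8 => hne2 (h ▸ h8.symm), h ▸ Esymm _ _ hst⟩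
            rw [hu, mem_singleton] at h7; exact htu h7
          have hvt : v ≠ t := by
            intro h
            have h7 : s ∈ Γ v := by
              simp only [Γ, mem_filter, mem_univ, true_and]
              exact ⟨fun h8 => hne2 (h ▸ h8), h ▸ hst⟩
            rw [hu, mem_singleton] at h7; exact hsu h7
          have hsub3 : (univ.filter (fun z : Tb P r => ((∀ u ∈ Γ v, z u = 0) ∧ z v ≠ 0) ∧ B (bv e, z))) ⊆
              (univ.filter (fun z : Tb P r => (∀ q ∈ ({u, s} : Finset P), z q = 0) ∧ z v ≠ 0)) ∪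
              (univ.filter (fun z : Tb P r => (∀ q ∈ ({u, t} : Finset P), z q = 0) ∧ z v ≠ 0)) := by
            intro z hz
            simp only [mem_filter, mem_univ, true_and, mem_union, mem_insert, mem_singleton, forall_eq_or_imp,
              forall_eq] at hz ⊢
            obtain ⟨⟨h1, h2⟩, h3⟩ := hz
            have h4 : z u = 0 := h1 u (by rw [hu]; simp)
            rcases Ecov s t hst _ h3 with h5 | h5
            · left; exact ⟨⟨h4, h5⟩, h2⟩
            · right; exact ⟨⟨h4, h5⟩, h2⟩
          refine le_trans (Nat.mul_le_mul_left _ (le_trans (card_le_card hsub3) (card_union_le _ _))) ?_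
          rw [card_zero_set _ _ (by simp only [mem_insert, mem_singleton, not_or]; exact ⟨hvu, hvs⟩),
            card_zero_set _ _ (by simp only [mem_insert, mem_singleton, not_or]; exact ⟨hvu, hvt⟩),
            card_pair (fun h => hsu h.symm), card_pair (fun h => htu h.symm), ← hnn]
          have hn4 : 4 ≤ n := by
            have h9 : ({u, v, s, t} : Finset P).card = 4 := by
              rw [card_insert_of_notMem, card_insert_of_notMem, card_pair hne2]
              · simp only [mem_insert, mem_singleton, not_or]; exact ⟨hvs, hvt⟩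
              · simp only [mem_insert, mem_singleton, not_or]
                exact ⟨fun h => hvu h.symm, fun h => hsu h.symm, fun h => htu h.symm⟩
            rw [← h9, hnn, ← card_univ]
            exact card_le_card (subset_univ _)
          have h10 : (r + 1) ^ (n - 2) = (r + 1) * (r + 1) ^ (n - 1 - 2) := by
            rw [← pow_succ']; congr 1; omega
          rw [h10]
          apply le_of_eq
          ring
      · refine le_trans ?_ (rect_num n r (Γ v).card hr hd (hΓcard v))
        apply Nat.mul_le_mul_left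
        apply Nat.mul_le_mul_left
        refine le_trans (card_le_card hsub2) ?_
        rw [card_zero_set _ _ (hvΓ v)]
  obtain ⟨c, hc⟩ := key
  refine ⟨c, fun e => ?_⟩
  -- sum over `v`
  have hcard : (univ.filter (fun t : P × P × Tb P r =>
      ok t.1 t.2.1 t.2.2 ∧ t.1 ≠ c ∧ A (xin e t.1 t.2.1) ∧ B (bv e, t.2.2))).card =
      ∑ v : P, (univ.filter (fun t : P × Tb P r =>
      ok t.1 v t.2 ∧ t.1 ≠ c ∧ A (xin e t.1 v) ∧ B (bv e, t.2))).card := by
    simp only [card_filter, Fintype.sum_prod_type]
    rw [sum_comm]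
  rw [hcard, mul_sum]
  refine le_trans (sum_le_sum (fun v _ => hc e v)) ?_
  split
  · rw [sum_ite_eq' univ c, if_pos (mem_univ c)]
    calc (r + 1) * (r * (r + 1) ^ (n - 2)) ≤ (2 * n) * (r * (r + 1) ^ (n - 2)) :=
          Nat.mul_le_mul_right _ (by omega)
      _ = _ := by ring
  · rw [sum_const, card_univ, ← hnn, smul_eq_mul]
    apply le_of_eq; ring

end Pool.Agent.Q225.IC
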