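import Pool.Agent.Q225.IC.Stm

/-! # MP_ea601a_lc: the protocol for `2 T` copies (UB) -/

open Finset

namespace Pool.Agent.Q225.IC

namespace UBaux

variable {X Y O : Type}

theorem prob_sum (p : Prot X Y O) (x : X) (y : Y) : ∑ t : p.T, p.prob x y t = 1 := by
  induction p with
  | out o =>
      show ∑ t : Unit, (1 : ℝ) = 1
      simp
  | alice f p q ihp ihq =>
      have h : ∑ t : (Prot.alice f p q).T, (Prot.alice f p q).prob x y t =
          ∑ t : p.T ⊕ q.T, Sum.elim (fun t => (f x : ℝ) * Prot.prob x y p t)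
            (fun t => (1 - (f x : ℝ)) * Prot.prob x y q t) t := rfl
      rw [h, Fintype.sum_sum_type]
      simp only [Sum.elim_inl, Sum.elim_inr]
      rw [← mul_sum, ← mul_sum, ihp, ihq]; ring
  | bob f p q ihp ihq =>
      have h : ∑ t : (Prot.bob f p q).T, (Prot.bob f p q).prob x y t =
          ∑ t : p.T ⊕ q.T, Sum.elim (fun t => (f y : ℝ) * Prot.prob x y p t)
            (fun t => (1 - (f y : ℝ)) * Prot.prob x y q t) t := rfl
      rw [h, Fintype.sum_sum_type]
      simp only [Sum.elim_inl, Sum.elim_inr]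
      rw [← mul_sum, ← mul_sum, ihp, ihq]; ring
  | coin s p q ihp ihq =>
      have h : ∑ t : (Prot.coin s p q).T, (Prot.coin s p q).prob x y t =
          ∑ t : p.T ⊕ q.T, Sum.elim (fun t => (s : ℝ) * Prot.prob x y p t)
            (fun t => (1 - (s : ℝ)) * Prot.prob x y q t) t := rfl
      rw [h, Fintype.sum_sum_type]
      simp only [Sum.elim_inl, Sum.elim_inr]
      rw [← mul_sum, ← mul_sum, ihp, ihq]; ring

theorem cst_out (o : O) (x : X) (y : Y) : cst (Prot.out o) x y = 0 := by
  unfold cst
  apply sum_eq_zero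
  intro t _
  simp [Prot.len]

theorem cst_bob (g : Y → unitInterval) (p q : Prot X Y O) (x : X) (y : Y) :
    cst (Prot.bob g p q) x y = 1 + (g y : ℝ) * cst p x y + (1 - (g y : ℝ)) * cst q x y := by
  have h : cst (Prot.bob g p q) x y =
      ∑ t : p.T ⊕ q.T, (Sum.elim (fun t => (g y : ℝ) * Prot.prob x y p t)
        (fun t => (1 - (g y : ℝ)) * Prot.prob x y q t) t) *
        ((Sum.elim (fun t => 1 + Prot.len p t) (fun t => 1 + Prot.len q t) t : ℕ) : ℝ) := rfl
  rw [h, Fintype.sum_sum_type]
  simp only [Sum.elim_inl, Sum.elim_inr, Nat.cast_add, Nat.cast_one]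
  have h1 : ∑ t : p.T, (g y : ℝ) * Prot.prob x y p t * (1 + (Prot.len p t : ℝ)) =
      (g y : ℝ) * (∑ t : p.T, Prot.prob x y p t) + (g y : ℝ) * cst p x y := by
    unfold cst
    rw [mul_sum, mul_sum, ← sum_add_distrib]
    exact sum_congr rfl (fun t _ => by ring)
  have h2 : ∑ t : q.T, (1 - (g y : ℝ)) * Prot.prob x y q t * (1 + (Prot.len q t : ℝ)) =
      (1 - (g y : ℝ)) * (∑ t : q.T, Prot.prob x y q t) + (1 - (g y : ℝ)) * cst q x y := by
    unfold cst
    rw [mul_sum, mul_sum, ← sum_add_distrib]
    exact sum_congr rfl (fun t _ => by ring)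
  rw [h1, h2, prob_sum, prob_sum]; ring

theorem zer_out (o : O) (x : X) (y : Y) : zer (Prot.out o) x y o := fun _ _ => rfl

theorem zer_bob {g : Y → unitInterval} {p q : Prot X Y O} {x : X} {y : Y} {o : O}
    (h1 : (g y : ℝ) ≠ 0 → zer p x y o) (h2 : (g y : ℝ) ≠ 1 → zer q x y o) : zer (Prot.bob g p q) x y o := by
  intro t ht
  rcases (t : p.T ⊕ q.T) with t | t
  · have h3 : (g y : ℝ) * Prot.prob x y p t ≠ 0 := ht
    exact h1 (left_ne_zero_of_mul h3) t (right_ne_zero_of_mul h3)
  · have h3 : (1 - (g y : ℝ)) * Prot.prob x y q t ≠ 0 := ht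
    exact h2 (fun h => left_ne_zero_of_mul h3 (by rw [h]; ring)) t (right_ne_zero_of_mul h3)

/-- zero-error protocols exist -/
theorem exists_ze (hA : S_ASK) {X Y : Type} [Finite X] (N : ℕ) (F : X → Y → Bits N) :
    ∃ p : Prot X Y (Bits N), ∀ x y, zer p x y (F x y) := by
  have := Fintype.ofFinite X
  by_cases hX : Nonempty X
  swap
  · refine ⟨.out (fun _ => true), fun x => absurd ⟨x⟩ hX⟩
  have hc : Fintype.card X ≤ Fintype.card (Bits (Fintype.card X)) := by
    simp only [Fintype.card_fun, Fintype.card_bool, Fintype.card_fin]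
    exact Nat.lt_two_pow_self.le
  obtain ⟨enc⟩ := Function.Embedding.nonempty_of_card_le hc
  have hdec : ∀ x, Function.invFun enc (enc x) = x := Function.leftInverse_invFun enc.injective
  have h1 : ∀ s : Bits (Fintype.card X), ∃ p : Prot X Y (Bits N), ∀ x y,
      zer p x y (F (Function.invFun enc s) y) := by
    intro s
    obtain ⟨p, hp⟩ := (hA X Y (Bits N) N).2 (fun y => F (Function.invFun enc s) y) (fun o => .out o)
    exact ⟨p, fun x y => (hp x y).2 _ (zer_out _ x y)⟩
  choose q hq using h1
  obtain ⟨p, hp⟩ := (hA X Y (Bits N) (Fintype.card X)).1 (fun x => enc x) q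
  refine ⟨p, fun x y => (hp x y).2 _ ?_⟩
  have := hq (enc x) x y
  rw [hdec] at this
  exact this

/-- the colour of a pair -/
def col (a a' : ZMod 5) (s : Bool × Bool) : ZMod 5 := bv (a, s.1) + 2 * bv (a', s.2)

theorem col_inj : ∀ (a a' : ZMod 5) (s t : Bool × Bool), col a a' s = col a a' t → s = t := by
  decide

open Classical in
/-- Alice's decoding -/
noncomputable def sel (a a' c : ZMod 5) : Bool × Bool :=
  if h : ∃ s, col a a' s = c then h.choose else (false, false)

theorem sel_col (a a' : ZMod 5) (s : Bool × Bool) : sel a a' (col a a' s) = s := by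
  unfold sel
  have h : ∃ t, col a a' t = col a a' s := ⟨s, rfl⟩
  rw [dif_pos h]
  exact col_inj _ _ _ _ h.choose_spec

theorem sum_pwl {S1 S2 : Type} [Fintype S1] [Fintype S2] (μ : S1 → S2 → ℝ) (h : ∑ s, ∑ t, μ s t = 1) (n : ℕ) :
    ∑ x : Fin n → S1, ∑ y : Fin n → S2, pwl μ n x y = 1 := by
  classical
  unfold pwl
  have h1 : ∀ x : Fin n → S1, ∑ y : Fin n → S2, ∏ i, μ (x i) (y i) = ∏ i, ∑ t, μ (x i) t := by
    intro x
    rw [prod_univ_sum, Fintype.piFinset_univ]
  simp only [h1]
  have h2 := prod_univ_sum (fun _ : Fin n => (univ : Finset S1)) (fun _ s => ∑ t, μ s t)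
  rw [Fintype.piFinset_univ] at h2
  rw [← h2]
  simp [h]

end UBaux

open UBaux

theorem t_UB (hA : S_ASK) : S_UB := by
  intro k r S1 S2 _ _ dX dY μ hμ0 hμ1 hμs T
  classical
  set F : S1 → S2 → Bool := fun s t => FF (dX s) (dY t) with hF
  set N := 2 * T with hN
  -- copies
  let i0 : Fin T → Fin N := fun j => ⟨2 * j.1, by omega⟩
  let i1 : Fin T → Fin N := fun j => ⟨2 * j.1 + 1, by omega⟩
  let jj : Fin N → Fin T := fun i => ⟨i.1 / 2, by omega⟩
  -- Bob's first message
  set K := Nat.clog 2 (5 ^ T) with hK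
  have hcard : Fintype.card (Fin T → ZMod 5) ≤ Fintype.card (Bits K) := by
    simp only [Fintype.card_fun, Fintype.card_bool, Fintype.card_fin, ZMod.card]
    exact Nat.le_pow_clog (by norm_num) _
  obtain ⟨enc⟩ := Function.Embedding.nonempty_of_card_le hcard
  have hdec : ∀ c, Function.invFun enc (enc c) = c := Function.leftInverse_invFun enc.injective
  let cy : (Fin N → S2) → Fin T → ZMod 5 := fun y j => (dY (y (i0 j))).1 + 2 * (dY (y (i1 j))).1
  let sb : (Fin T → ZMod 5) → (Fin N → S1) → Fin N → Bool := fun c x i =>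
    if i.1 % 2 = 0 then (sel (dX (x (i0 (jj i)))).1 (dX (x (i1 (jj i)))).1 (c (jj i))).1
    else (sel (dX (x (i0 (jj i)))).1 (dX (x (i1 (jj i)))).1 (c (jj i))).2
  let ad : (Fin T → ZMod 5) → (Fin N → S1) → Fin N → Bits k := fun c x i =>
    if sb c x i = true then (dX (x i)).2.2 else (dX (x i)).2.1
  let msg : (Fin T → ZMod 5) → (Fin N → S1) → Bits (2 * T * k) := fun c x l =>
    ad c x (finProdFinEquiv.symm l).1 (finProdFinEquiv.symm l).2
  let rd : Bits (2 * T * k) → Fin N → Bits k := fun w i j => w (finProdFinEquiv (i, j))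
  have hrd : ∀ c x, rd (msg c x) = ad c x := by
    intro c x; funext i j
    show ad c x (finProdFinEquiv.symm (finProdFinEquiv (i, j))).1
      (finProdFinEquiv.symm (finProdFinEquiv (i, j))).2 = ad c x i j
    rw [Equiv.symm_apply_apply]
  let good : Bits (2 * T * k) → (Fin N → S2) → Prop := fun w y => ∀ i, (dY (y i)).2 (rd w i) = 0
  -- fallback
  obtain ⟨fb, hfb⟩ := exists_ze (X := Fin N → S1) (Y := Fin N → S2) hA N (pw F N)
  let q2 : Bits (2 * T * k) → Prot (Fin N → S1) (Fin N → S2) (Fin N → Bool) := fun w =>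
    .bob (fun y => if good w y then 1 else 0) (.out (fun _ => true)) fb
  have h1 : ∀ s : Bits K, ∃ p : Prot (Fin N → S1) (Fin N → S2) (Fin N → Bool), ∀ x y,
      cst p x y = (2 * T * k : ℕ) + cst (q2 (msg (Function.invFun enc s) x)) x y ∧
      ∀ o, (zer (q2 (msg (Function.invFun enc s) x)) x y o → zer p x y o) := fun s =>
    (hA _ _ _ (2 * T * k)).1 (msg (Function.invFun enc s)) q2
  choose q1 hq1 using h1
  obtain ⟨p, hp⟩ := (hA (Fin N → S1) (Fin N → S2) (Fin N → Bool) K).2 (fun y => enc (cy y)) q1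
  refine ⟨p, ?_, ?_⟩
  · -- zero error
    intro x y
    have h2 := (hp x y).2 (pw F N x y) ((hq1 (enc (cy y)) x y).2 (pw F N x y) ?_)
    · exact h2
    rw [hdec]
    apply zer_bob
    · intro h3
      have h4 : good (msg (cy y) x) y := by
        by_contra h5
        simp [h5] at h3
      have h5 : pw F N x y = fun _ => true := by
        funext i
        have h6 := h4 i
        rw [hrd] at h6
        show FF (dX (x i)) (dY (y i)) = true
        unfold FF
        rw [decide_eq_true_eq]
        by_cases h7 : sb (cy y) x i = true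
        · right
          have h8 : ad (cy y) x i = (dX (x i)).2.2 := by simp only [ad, h7, if_true]
          rw [h8] at h6; exact h6
        · left
          have h8 : ad (cy y) x i = (dX (x i)).2.1 := by
            simp only [ad, if_neg h7]
          rw [h8] at h6; exact h6
      rw [h5]; exact zer_out _ x y
    · intro _; exact hfb x y
  · -- cost
    have h2 : ∀ x y, pwl μ N x y ≠ 0 → cst p x y = K + 2 * T * k + 1 := by
      intro x y hxy
      have hval : ∀ i, ∃ (e : Ed) (w v : Bits k) (z : Tb (Bits k) r), ok w v z ∧ dX (x i) = xin e w v ∧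
          dY (y i) = (bv e, z) := fun i => hμs _ _ (fun h => hxy (prod_eq_zero (mem_univ i) h))
      choose e w v z hok hx hy using hval
      have ha : ∀ i, (dX (x i)).1 = (e i).1 := by
        intro i; rw [hx i]; unfold xin; split <;> rfl
      have hb : ∀ i, (dY (y i)).1 = bv (e i) := by
        intro i; rw [hy i]
      have hcy : ∀ j, cy y j = col (e (i0 j)).1 (e (i1 j)).1 ((e (i0 j)).2, (e (i1 j)).2) := by
        intro j; simp only [cy, hb, col, Prod.mk.eta]
      have hsb : ∀ i, sb (cy y) x i = (e i).2 := by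
        intro i
        have h3 : sel (dX (x (i0 (jj i)))).1 (dX (x (i1 (jj i)))).1 (cy y (jj i)) =
            ((e (i0 (jj i))).2, (e (i1 (jj i))).2) := by
          rw [ha, ha, hcy, sel_col]
        simp only [sb, h3]
        by_cases h4 : i.1 % 2 = 0
        · rw [if_pos h4]
          have : i0 (jj i) = i := by ext; simp only [i0, jj]; omega
          rw [this]
        · rw [if_neg h4]
          have : i1 (jj i) = i := by ext; simp only [i1, jj]; omega
          rw [this]
      have had : ∀ i, ad (cy y) x i = w i := by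
        intro i
        simp only [ad, hsb i, hx i, xin]
        by_cases h4 : (e i).2 = true
        · simp [h4]
        · simp [h4]
      have hgood : good (msg (cy y) x) y := by
        intro i
        rw [hrd, had, hy i]
        exact (hok i).2.1
      rw [(hp x y).1, (hq1 (enc (cy y)) x y).1, hdec, cst_bob, cst_out]
      simp only [hgood, if_true]
      push_cast
      simp
      ring
    have h3 : cost (pwl μ N) p = ∑ x, ∑ y, pwl μ N x y * cst p x y := by
      unfold cost cst
      apply sum_congr rfl; intro x _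
      apply sum_congr rfl; intro y _
      rw [mul_sum]
    rw [h3]
    have h4 : ∑ x, ∑ y, pwl μ N x y * cst p x y = ∑ x, ∑ y, pwl μ N x y * (K + 2 * T * k + 1) := by
      apply sum_congr rfl; intro x _
      apply sum_congr rfl; intro y _
      by_cases h5 : pwl μ N x y = 0
      · rw [h5]; simp
      · rw [h2 x y h5]
    rw [h4]
    simp only [← sum_mul]
    rw [sum_pwl μ hμ1 N, one_mul]

end Pool.Agent.Q225.IC
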