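import Pool.Agent.Q225.IC.Fin
import Pool.Agent.Q225.IC.UB
import Pool.Agent.Q225.IC.RECT
import Pool.Agent.Q285.IC.Ls
import Pool.Agent.Q285.IC.Fac
import Pool.Agent.Q14.IC.Sid
import Pool.Agent.Q14.IC.TT
import Pool.Agent.Q124.IC.T12
import Pool.Agent.Q102.IC.C
import Pool.Agent.Q102.IC.OV
import Pool.Agent.Q102.IC.LIFT
import Pool.Agent.Q102.IC.ASK
import Pool.Agent.Q206.IC.Cnt
import Pool.Agent.Q206.IC.ENT
import Pool.Agent.Q206.IC.LEAF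
import Pool.Agent.Q206.IC.GOOD
import Pool.Agent.Q206.IC.CH

/-! # MP_ea601a_lc: everything put together -/

namespace Pool.Agent.Q225.IC

theorem all_TT : S_TT := t_TT (t_T1 t_LS t_GEN) (t_T2 t_LS t_CNT)
theorem all_B : S_B := t_B t_SID all_TT
theorem all_C : S_C := Pool.Agent.Q102.IC.t_C all_TT
theorem all_SUM : S_SUM := Pool.Agent.Q206.IC.t_SUM t_CNT
theorem all_OV : S_OV := Pool.Agent.Q102.IC.t_OV all_SUM
theorem all_KL0 : S_KL0 := t_KL0 t_LS t_CNT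
theorem all_GOOD : S_GOOD := Pool.Agent.Q206.IC.t_GOOD all_KL0 all_B all_C all_SUM all_OV
theorem all_LEAF : S_LEAF := Pool.Agent.Q206.IC.t_LEAF t_RECT
theorem all_CH : S_CH := Pool.Agent.Q206.IC.t_CH all_LEAF all_KL0 Pool.Agent.Q206.IC.t_ENT all_GOOD all_SUM
theorem all_UB : S_UB := t_UB Pool.Agent.Q102.IC.t_ASK
theorem all_FIN : S_FIN :=
  t_FIN all_CH t_FAC (Pool.Agent.Q102.IC.t_LAW t_CNT) Pool.Agent.Q102.IC.t_LIFT all_UB Pool.Agent.Q102.IC.t_ZE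

end Pool.Agent.Q225.IC
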