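import Mathlib

/-!
# Zero-error protocols, external information, amortized communication (MP_ea601a_lc): definitions

* `Prot X Y O`: two-party protocols with private and public randomness (finite trees). Alice holds `x : X`, Bob
  holds `y : Y`. At a node `alice f p q` Alice sends one bit, which is `1` with probability `f x` (then the
  protocol goes on with `p`) and `0` with probability `1 - f x` (then it goes on with `q`); `bob` is the same for
  Bob; at a node `coin s p q` a public coin with bias `s` is tossed (no communication); `out o` is the end, with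
  output `o`.
* `p.T`: the transcripts (paths to the ends, the results of the public coins included).
* `p.prob x y t`: probability of the transcript `t` on the input `(x, y)`.
* `p.len t`: number of bits exchanged (public coins are free). `p.res t`: output.
-/

open Finset

namespace Pool.Agent.Q225.IC

/-- protocols -/
inductive Prot (X Y O : Type) : Type
  | out (o : O) : Prot X Y O
  | alice (f : X → unitInterval) (p q : Prot X Y O) : Prot X Y O
  | bob (g : Y → unitInterval) (p q : Prot X Y O) : Prot X Y O
  | coin (s : unitInterval) (p q : Prot X Y O) : Prot X Y O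

variable {X Y O : Type}

/-- the transcripts -/
def Prot.T : Prot X Y O → Type
  | .out _ => Unit
  | .alice _ p q => p.T ⊕ q.T
  | .bob _ p q => p.T ⊕ q.T
  | .coin _ p q => p.T ⊕ q.T

/-- there are finitely many transcripts -/
instance Prot.fintypeT : (p : Prot X Y O) → Fintype p.T
  | .out _ => inferInstanceAs (Fintype Unit)
  | .alice _ p q =>
      letI := fintypeT p
      letI := fintypeT q
      inferInstanceAs (Fintype (p.T ⊕ q.T))
  | .bob _ p q =>
      letI := fintypeT p
      letI := fintypeT q
      inferInstanceAs (Fintype (p.T ⊕ q.T))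
  | .coin _ p q =>
      letI := fintypeT p
      letI := fintypeT q
      inferInstanceAs (Fintype (p.T ⊕ q.T))

/-- probability of the transcript `t` on the input `(x, y)` -/
def Prot.prob (x : X) (y : Y) : (p : Prot X Y O) → p.T → ℝ
  | .out _ => fun _ => 1
  | .alice f p q =>
      Sum.elim (fun t => (f x : ℝ) * Prot.prob x y p t) (fun t => (1 - (f x : ℝ)) * Prot.prob x y q t)
  | .bob g p q =>
      Sum.elim (fun t => (g y : ℝ) * Prot.prob x y p t) (fun t => (1 - (g y : ℝ)) * Prot.prob x y q t)
  | .coin s p q =>
      Sum.elim (fun t => (s : ℝ) * Prot.prob x y p t) (fun t => (1 - (s : ℝ)) * Prot.prob x y q t)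

/-- number of bits exchanged along the transcript (public coins are free) -/
def Prot.len : (p : Prot X Y O) → p.T → ℕ
  | .out _ => fun _ => 0
  | .alice _ p q => Sum.elim (fun t => 1 + Prot.len p t) (fun t => 1 + Prot.len q t)
  | .bob _ p q => Sum.elim (fun t => 1 + Prot.len p t) (fun t => 1 + Prot.len q t)
  | .coin _ p q => Sum.elim (fun t => Prot.len p t) (fun t => Prot.len q t)

/-- output -/
def Prot.res : (p : Prot X Y O) → p.T → O
  | .out o => fun _ => o
  | .alice _ p q => Sum.elim (fun t => Prot.res p t) (fun t => Prot.res q t)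
  | .bob _ p q => Sum.elim (fun t => Prot.res p t) (fun t => Prot.res q t)
  | .coin _ p q => Sum.elim (fun t => Prot.res p t) (fun t => Prot.res q t)

/-- zero error: on every input every transcript of positive probability has the right output -/
def ZeroError (F : X → Y → O) (p : Prot X Y O) : Prop :=
  ∀ x y (t : p.T), p.prob x y t ≠ 0 → p.res t = F x y

/-- external information `I(Π; XY)` in bits for `(X,Y)` with law `μ` -/
noncomputable def info [Fintype X] [Fintype Y] (μ : X → Y → ℝ) (p : Prot X Y O) : ℝ :=
  ∑ x, ∑ y, ∑ t : p.T, μ x y * (p.prob x y t *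
    Real.logb 2 (p.prob x y t / ∑ x', ∑ y', μ x' y' * p.prob x' y' t))

/-- expected number of bits exchanged for `(X,Y)` with law `μ` -/
noncomputable def cost [Fintype X] [Fintype Y] (μ : X → Y → ℝ) (p : Prot X Y O) : ℝ :=
  ∑ x, ∑ y, ∑ t : p.T, μ x y * (p.prob x y t * (p.len t : ℝ))

/-- zero-error external information complexity -/
noncomputable def ICext [Fintype X] [Fintype Y] (F : X → Y → O) (μ : X → Y → ℝ) : ℝ :=
  sInf {r : ℝ | ∃ p : Prot X Y O, ZeroError F p ∧ r = info μ p}

/-- zero-error expected communication complexity -/
noncomputable def avgCC [Fintype X] [Fintype Y] (F : X → Y → O) (μ : X → Y → ℝ) : ℝ :=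
  sInf {r : ℝ | ∃ p : Prot X Y O, ZeroError F p ∧ r = cost μ p}

/-- `n` independent copies of the task `F` -/
def pw (F : X → Y → O) (n : ℕ) : (Fin n → X) → (Fin n → Y) → (Fin n → O) := fun x y i => F (x i) (y i)

/-- the product law `μ^n` -/
noncomputable def pwl (μ : X → Y → ℝ) (n : ℕ) : (Fin n → X) → (Fin n → Y) → ℝ := fun x y => ∏ i, μ (x i) (y i)

/-- `k`-bit strings -/
abbrev Bits (k : ℕ) := Fin k → Bool

/-! ## the gadget -/

/-- tables of Bob: every address `p : P` gets one of `r + 1` symbols; the symbol `0` is the good one -/
abbrev Tb (P : Type) (r : ℕ) := P → Fin (r + 1)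
/-- inputs of Alice: `a ∈ Z_5` and two addresses -/
abbrev XX (P : Type) := ZMod 5 × P × P
/-- inputs of Bob: `b ∈ Z_5` and a table -/
abbrev YY (P : Type) (r : ℕ) := ZMod 5 × Tb P r
/-- the types of the joint law: `(a, i)`, `i = false, true`; then `b = a`, `b = a + 1` -/
abbrev Ed := ZMod 5 × Bool

/-- `b` -/
def bv (e : Ed) : ZMod 5 := if e.2 = true then e.1 + 1 else e.1
/-- the other type with the same `a` -/
def flp (e : Ed) : Ed := (e.1, !e.2)
/-- Alice's input of type `e` whose good address is `w` and whose other address is `v` -/
def xin {P : Type} (e : Ed) (w v : P) : XX P := if e.2 = true then (e.1, v, w) else (e.1, w, v)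
/-- the function: is one of the two table entries `0`? (`a` and `b` are irrelevant) -/
def FF {P : Type} {r : ℕ} (x : XX P) (y : YY P r) : Bool := decide (y.2 x.2.1 = 0 ∨ y.2 x.2.2 = 0)

end Pool.Agent.Q225.IC
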