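import Pool.Agent.Q225.IC.Stm

/-! # MP_ea601a_lc: the final assembly -/

open Finset Filter Topology

namespace Pool.Agent.Q225.IC

/-- the negated form of Q1, quantitatively: external information at zero error can be larger than the amortized
expected communication at zero error -/
def S_FIN : Prop := ∃ (m : ℕ) (F : Bits m → Bits m → Bool) (μ : Bits m → Bits m → ℝ), 1 ≤ m ∧
    (∀ x y, 0 ≤ μ x y) ∧ (∑ x, ∑ y, μ x y) = 1 ∧
    (∀ n : ℕ, avgCC (pw F (2 * n)) (pwl μ (2 * n)) ≤ 2 * n * (ICext F μ - 1 / 50) + 2) ∧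
    ¬ Tendsto (fun n : ℕ => avgCC (pw F n) (pwl μ n) / n) atTop (𝓝 (ICext F μ))

namespace FINaux

theorem prob_nonneg {X Y O : Type} (hF : S_FAC) (p : Prot X Y O) (x : X) (y : Y) (t : p.T) :
    0 ≤ p.prob x y t := by
  obtain ⟨⟨α, β, ha, hb, h⟩, -⟩ := hF X Y O p
  rw [h]
  exact mul_nonneg (ha t x) (hb t y)

theorem cost_nonneg {X Y O : Type} [Fintype X] [Fintype Y] (hF : S_FAC) (μ : X → Y → ℝ)
    (hμ : ∀ x y, 0 ≤ μ x y) (p : Prot X Y O) : 0 ≤ cost μ p := by
  unfold cost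
  refine sum_nonneg fun x _ => sum_nonneg fun y _ => sum_nonneg fun t _ => ?_
  exact mul_nonneg (hμ x y) (mul_nonneg (prob_nonneg hF p x y t) (Nat.cast_nonneg _))

theorem pwl_nonneg {X Y : Type} (μ : X → Y → ℝ) (hμ : ∀ x y, 0 ≤ μ x y) (n : ℕ) (x : Fin n → X)
    (y : Fin n → Y) : 0 ≤ pwl μ n x y := prod_nonneg fun i _ => hμ _ _

theorem avgCC_le {X Y O : Type} [Fintype X] [Fintype Y] (hF : S_FAC) (F : X → Y → O) (μ : X → Y → ℝ)
    (hμ : ∀ x y, 0 ≤ μ x y) (p : Prot X Y O) (hp : ZeroError F p) : avgCC F μ ≤ cost μ p := by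
  apply csInf_le
  · refine ⟨0, ?_⟩
    rintro _ ⟨q, -, rfl⟩
    exact cost_nonneg hF μ hμ q
  · exact ⟨p, hp, rfl⟩

theorem clog_le (n : ℕ) : (Nat.clog 2 (5 ^ n) : ℝ) ≤ n * (137 / 59) + 1 := by
  have h5 : (5 : ℝ) ^ 59 ≤ 2 ^ 137 := by norm_num
  have hl : Real.logb 2 5 ≤ 137 / 59 := by
    have h1 : Real.logb 2 ((5 : ℝ) ^ 59) ≤ Real.logb 2 ((2 : ℝ) ^ 137) :=
      Real.logb_le_logb_of_le (by norm_num) (by positivity) h5
    rw [Real.logb_pow, Real.logb_pow, Real.logb_self_eq_one (by norm_num)] at h1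
    push_cast at h1
    linarith
  have h2 : (Nat.clog 2 (5 ^ n) : ℝ) < Real.logb 2 ((5 : ℝ) ^ n) + 1 := by
    have h3 := Real.natCeil_logb_natCast 2 (5 ^ n)
    have h4 : 0 ≤ Real.logb 2 ((5 : ℝ) ^ n) :=
      Real.logb_nonneg (by norm_num) (one_le_pow₀ (by norm_num))
    have h5 := Nat.ceil_lt_add_one h4
    have h6 : ⌈Real.logb 2 ((5 : ℝ) ^ n)⌉₊ = Nat.clog 2 (5 ^ n) := by
      rw [← h3]; norm_num
    rw [h6] at h5
    exact h5
  rw [Real.logb_pow] at h2
  have : (n : ℝ) * Real.logb 2 5 ≤ n * (137 / 59) := mul_le_mul_of_nonneg_left hl (Nat.cast_nonneg n)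
  linarith

theorem NS_pos (k r : ℕ) (hr : 1 ≤ r) (hk : 1 ≤ k) : 0 < NS (Bits k) r := by
  unfold NS
  have hc : (2 : ℝ) ≤ (Fintype.card (Bits k) : ℝ) := by
    have : Fintype.card (Bits k) = 2 ^ k := by simp [Bits]
    rw [this]
    have : 2 ^ 1 ≤ 2 ^ k := Nat.pow_le_pow_right (by norm_num) hk
    exact_mod_cast this
  have hr' : (1 : ℝ) ≤ r := by exact_mod_cast hr
  have h1 : (0 : ℝ) < (Fintype.card (Bits k) : ℝ) - 1 := by linarith
  have h2 : (0 : ℝ) < (Fintype.card (Bits k) : ℝ) := by linarith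
  have h3 : (0 : ℝ) < r := by linarith
  positivity

end FINaux

open FINaux in
theorem t_FIN (hCH : S_CH) (hFAC : S_FAC) (hLAW : S_LAW) (hLIFT : S_LIFT) (hUB : S_UB) (hZE : S_ZE) : S_FIN := by
  obtain ⟨r, k, hr, hk, hch⟩ := hCH
  set m : ℕ := max (Fintype.card (XX (Bits k))) (Fintype.card (YY (Bits k) r)) + 1 with hm
  have hcard : Fintype.card (Bits m) = 2 ^ m := by simp [Bits]
  have hlt : m < 2 ^ m := Nat.lt_two_pow_self
  have hX : Fintype.card (XX (Bits k)) ≤ Fintype.card (Bits m) := by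
    rw [hcard]
    have := le_max_left (Fintype.card (XX (Bits k))) (Fintype.card (YY (Bits k) r))
    omega
  have hY : Fintype.card (YY (Bits k) r) ≤ Fintype.card (Bits m) := by
    rw [hcard]
    have := le_max_right (Fintype.card (XX (Bits k))) (Fintype.card (YY (Bits k) r))
    omega
  obtain ⟨eX⟩ := Function.Embedding.nonempty_of_card_le hX
  obtain ⟨eY⟩ := Function.Embedding.nonempty_of_card_le hY
  haveI : Nonempty (XX (Bits k)) := ⟨((0 : ZMod 5), fun _ => false, fun _ => false)⟩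
  haveI : Nonempty (YY (Bits k) r) := ⟨((0 : ZMod 5), fun _ => 0)⟩
  set dX : Bits m → XX (Bits k) := Function.invFun eX with hdX
  set dY : Bits m → YY (Bits k) r := Function.invFun eY with hdY
  have hdeX : ∀ x, dX (eX x) = x := Function.leftInverse_invFun eX.injective
  have hdeY : ∀ y, dY (eY y) = y := Function.leftInverse_invFun eY.injective
  set μ : Bits m → Bits m → ℝ := lawE eX eY with hμdef
  obtain ⟨hμ0, hμ1⟩ := hLAW k r m eX eY hr hk
  have hsupp : ∀ s t, μ s t ≠ 0 → ∃ (e : Ed) (w v : Bits k) (z : Tb (Bits k) r), ok w v z ∧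
      dX s = xin e w v ∧ dY t = (bv e, z) := by
    intro s t hst
    by_contra hcon
    apply hst
    rw [hμdef]
    unfold lawE
    have hz : (∑ e : Ed, ∑ w : Bits k, ∑ v : Bits k, ∑ z : Tb (Bits k) r,
        if ok w v z ∧ eX (xin e w v) = s ∧ eY (bv e, z) = t then (1 : ℝ) else 0) = 0 := by
      refine sum_eq_zero fun e _ => sum_eq_zero fun w _ => sum_eq_zero fun v _ => sum_eq_zero fun z _ => ?_
      rw [if_neg]
      rintro ⟨h1, h2, h3⟩
      apply hcon
      refine ⟨e, w, v, z, h1, ?_, ?_⟩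
      · rw [← h2, hdeX]
      · rw [← h3, hdeY]
    rw [hz, zero_div]
  set F : Bits m → Bits m → Bool := fun s t => FF (dX s) (dY t) with hF
  have hlog2 : (0 : ℝ) < Real.log 2 := Real.log_pos (by norm_num)
  have hNS := NS_pos k r hr hk
  -- the lower bound
  have hlow : ∀ p : Prot (Bits m) (Bits m) Bool, ZeroError F p → (k : ℝ) + 0.82 / Real.log 2 ≤ info μ p := by
    intro p hp
    obtain ⟨⟨α, β, ha, hb, hab⟩, hsum⟩ := hFAC (Bits m) (Bits m) Bool p
    rw [hμdef, hLIFT k r m eX eY p α β hr hk hab]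
    have hC : Ch (r := r) (fun (t : p.T) (x : XX (Bits k)) => α t (eX x)) (fun t (y : YY (Bits k) r) => β t (eY y)) := by
      refine ⟨fun i x => ha i _, fun i y => hb i _, fun x y => ?_⟩
      rw [← hsum (eX x) (eY y)]
      exact sum_congr rfl fun t _ => (hab _ _ _).symm
    have h := hch p.T (fun t x => α t (eX x)) (fun t y => β t (eY y)) hC (by
      intro t
      refine ⟨p.res t, fun x y hx hy => ?_⟩
      have h1 : p.prob (eX x) (eY y) t ≠ 0 := by
        rw [hab]; exact mul_ne_zero hx hy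
      have h2 := hp _ _ t h1
      rw [h2, hF]
      simp only [hdeX, hdeY])
    rw [le_div_iff₀ (by positivity)]
    have h3 : ((k : ℝ) + 0.82 / Real.log 2) * (NS (Bits k) r * Real.log 2) =
        NS (Bits k) r * (k * Real.log 2 + 0.82) := by
      field_simp
    rw [h3]
    exact h
  have hIC : (k : ℝ) + 0.82 / Real.log 2 ≤ ICext F μ := by
    apply le_csInf
    · obtain ⟨p, hp⟩ := hZE m F
      exact ⟨_, p, hp, rfl⟩
    · rintro _ ⟨p, hp, rfl⟩
      exact hlow p hp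
  have hnum : (1.183 : ℝ) ≤ 0.82 / Real.log 2 := by
    rw [le_div_iff₀ hlog2]
    have := Real.log_two_lt_d9
    nlinarith
  have hbound : ∀ n : ℕ, avgCC (pw F (2 * n)) (pwl μ (2 * n)) ≤ 2 * n * (ICext F μ - 1 / 50) + 2 := by
    intro n
    obtain ⟨p, hp, hc⟩ := hUB k r (Bits m) (Bits m) dX dY μ hμ0 hμ1 hsupp n
    have h1 := avgCC_le hFAC (pw F (2 * n)) (pwl μ (2 * n)) (pwl_nonneg μ hμ0 _) p hp
    have h2 := clog_le n
    have hn : (0 : ℝ) ≤ n := Nat.cast_nonneg n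
    have h3 : (k : ℝ) + 1.163 ≤ ICext F μ - 1 / 50 := by linarith
    have h4 : 2 * (n : ℝ) * ((k : ℝ) + 1.163) ≤ 2 * n * (ICext F μ - 1 / 50) :=
      mul_le_mul_of_nonneg_left h3 (by positivity)
    have h5 : (n : ℝ) * (137 / 59) ≤ n * (2 * 1.163) := mul_le_mul_of_nonneg_left (by norm_num) hn
    linarith
  refine ⟨m, F, μ, by omega, hμ0, hμ1, hbound, ?_⟩
  intro hT
  have h2n : Tendsto (fun n : ℕ => 2 * n) atTop atTop :=
    tendsto_id.const_mul_atTop' (by norm_num)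
  have hT2 := hT.comp h2n
  have hlim : Tendsto (fun n : ℕ => (ICext F μ - 1 / 50) + 1 / (n : ℝ)) atTop (𝓝 ((ICext F μ - 1 / 50) + 0)) :=
    tendsto_const_nhds.add tendsto_one_div_atTop_nhds_zero_nat
  have hle := le_of_tendsto_of_tendsto hT2 hlim (by
    filter_upwards [eventually_ge_atTop 1] with n hn
    have hn' : (0 : ℝ) < n := by exact_mod_cast hn
    simp only [Function.comp]
    rw [div_le_iff₀ (by push_cast; positivity)]
    have h := hbound n
    push_cast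
    have h6 : (ICext F μ - 1 / 50 + 1 / (n : ℝ)) * (2 * n) = 2 * n * (ICext F μ - 1 / 50) + 2 := by
      field_simp
    rw [h6]
    exact h)
  linarith

end Pool.Agent.Q225.IC
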