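import Pool.Agent.Q225.IC.All

/-! # MP_ea601a_lc: the limit of `avgCC (pw F n) (pwl μ n) / n` exists (Fekete) -/

open Finset Filter Topology

namespace Pool.Agent.Q225.IC

namespace LIMaux

variable {X Y O X1 Y1 O1 X2 Y2 O2 : Type}

/-- the protocol `p` on the inputs `f x`, `g y`, output `h o` -/
def mapP (f : X → X1) (g : Y → Y1) (h : O1 → O) : Prot X1 Y1 O1 → Prot X Y O
  | .out o => .out (h o)
  | .alice a p q => .alice (fun x => a (f x)) (mapP f g h p) (mapP f g h q)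
  | .bob b p q => .bob (fun y => b (g y)) (mapP f g h p) (mapP f g h q)
  | .coin s p q => .coin s (mapP f g h p) (mapP f g h q)

/-- first `p` on `f1 x`, `g1 y`, then `q` on `f2 x`, `g2 y` -/
def comb (f1 : X → X1) (g1 : Y → Y1) (f2 : X → X2) (g2 : Y → Y2) (h : O1 → O2 → O) (q : Prot X2 Y2 O2) :
    Prot X1 Y1 O1 → Prot X Y O
  | .out o => mapP f2 g2 (h o) q
  | .alice a p p' => .alice (fun x => a (f1 x)) (comb f1 g1 f2 g2 h q p) (comb f1 g1 f2 g2 h q p')
  | .bob b p p' => .bob (fun y => b (g1 y)) (comb f1 g1 f2 g2 h q p) (comb f1 g1 f2 g2 h q p')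
  | .coin s p p' => .coin s (comb f1 g1 f2 g2 h q p) (comb f1 g1 f2 g2 h q p')

theorem prob_sum (p : Prot X Y O) (x : X) (y : Y) : ∑ t : p.T, p.prob x y t = 1 := UBaux.prob_sum p x y

theorem cst_alice (f : X → unitInterval) (p q : Prot X Y O) (x : X) (y : Y) :
    cst (Prot.alice f p q) x y = 1 + (f x : ℝ) * cst p x y + (1 - (f x : ℝ)) * cst q x y := by
  have h : cst (Prot.alice f p q) x y =
      ∑ t : p.T ⊕ q.T, (Sum.elim (fun t => (f x : ℝ) * Prot.prob x y p t)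
        (fun t => (1 - (f x : ℝ)) * Prot.prob x y q t) t) *
        ((Sum.elim (fun t => 1 + Prot.len p t) (fun t => 1 + Prot.len q t) t : ℕ) : ℝ) := rfl
  rw [h, Fintype.sum_sum_type]
  simp only [Sum.elim_inl, Sum.elim_inr, Nat.cast_add, Nat.cast_one]
  have h1 : ∑ t : p.T, (f x : ℝ) * Prot.prob x y p t * (1 + (Prot.len p t : ℝ)) =
      (f x : ℝ) * (∑ t : p.T, Prot.prob x y p t) + (f x : ℝ) * cst p x y := by
    unfold cst
    rw [mul_sum, mul_sum, ← sum_add_distrib]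
    exact sum_congr rfl (fun t _ => by ring)
  have h2 : ∑ t : q.T, (1 - (f x : ℝ)) * Prot.prob x y q t * (1 + (Prot.len q t : ℝ)) =
      (1 - (f x : ℝ)) * (∑ t : q.T, Prot.prob x y q t) + (1 - (f x : ℝ)) * cst q x y := by
    unfold cst
    rw [mul_sum, mul_sum, ← sum_add_distrib]
    exact sum_congr rfl (fun t _ => by ring)
  rw [h1, h2, prob_sum, prob_sum]; ring

theorem cst_coin (s : unitInterval) (p q : Prot X Y O) (x : X) (y : Y) :
    cst (Prot.coin s p q) x y = (s : ℝ) * cst p x y + (1 - (s : ℝ)) * cst q x y := by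
  have h : cst (Prot.coin s p q) x y =
      ∑ t : p.T ⊕ q.T, (Sum.elim (fun t => (s : ℝ) * Prot.prob x y p t)
        (fun t => (1 - (s : ℝ)) * Prot.prob x y q t) t) *
        ((Sum.elim (fun t => Prot.len p t) (fun t => Prot.len q t) t : ℕ) : ℝ) := rfl
  rw [h, Fintype.sum_sum_type]
  simp only [Sum.elim_inl, Sum.elim_inr]
  unfold cst
  rw [mul_sum, mul_sum]
  congr 1
  · exact sum_congr rfl (fun t _ => by ring)
  · exact sum_congr rfl (fun t _ => by ring)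

theorem zer_alice (f : X → unitInterval) (p q : Prot X Y O) (x : X) (y : Y) (o : O) :
    zer (Prot.alice f p q) x y o ↔ ((f x : ℝ) ≠ 0 → zer p x y o) ∧ ((f x : ℝ) ≠ 1 → zer q x y o) := by
  constructor
  · intro h
    refine ⟨fun h0 t ht => h (Sum.inl t) (mul_ne_zero h0 ht), fun h1 t ht => ?_⟩
    have h2 : (1 - (f x : ℝ)) ≠ 0 := fun h3 => h1 (by linarith)
    exact h (Sum.inr t) (mul_ne_zero h2 ht)
  · rintro ⟨h1, h2⟩ t ht
    rcases (t : p.T ⊕ q.T) with t | t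
    · have h3 : (f x : ℝ) * Prot.prob x y p t ≠ 0 := ht
      exact h1 (left_ne_zero_of_mul h3) t (right_ne_zero_of_mul h3)
    · have h3 : (1 - (f x : ℝ)) * Prot.prob x y q t ≠ 0 := ht
      exact h2 (fun h => left_ne_zero_of_mul h3 (by rw [h]; ring)) t (right_ne_zero_of_mul h3)

theorem zer_bob (g : Y → unitInterval) (p q : Prot X Y O) (x : X) (y : Y) (o : O) :
    zer (Prot.bob g p q) x y o ↔ ((g y : ℝ) ≠ 0 → zer p x y o) ∧ ((g y : ℝ) ≠ 1 → zer q x y o) := by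
  constructor
  · intro h
    refine ⟨fun h0 t ht => h (Sum.inl t) (mul_ne_zero h0 ht), fun h1 t ht => ?_⟩
    have h2 : (1 - (g y : ℝ)) ≠ 0 := fun h3 => h1 (by linarith)
    exact h (Sum.inr t) (mul_ne_zero h2 ht)
  · rintro ⟨h1, h2⟩ t ht
    rcases (t : p.T ⊕ q.T) with t | t
    · have h3 : (g y : ℝ) * Prot.prob x y p t ≠ 0 := ht
      exact h1 (left_ne_zero_of_mul h3) t (right_ne_zero_of_mul h3)
    · have h3 : (1 - (g y : ℝ)) * Prot.prob x y q t ≠ 0 := ht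
      exact h2 (fun h => left_ne_zero_of_mul h3 (by rw [h]; ring)) t (right_ne_zero_of_mul h3)

theorem zer_coin (s : unitInterval) (p q : Prot X Y O) (x : X) (y : Y) (o : O) :
    zer (Prot.coin s p q) x y o ↔ ((s : ℝ) ≠ 0 → zer p x y o) ∧ ((s : ℝ) ≠ 1 → zer q x y o) := by
  constructor
  · intro h
    refine ⟨fun h0 t ht => h (Sum.inl t) (mul_ne_zero h0 ht), fun h1 t ht => ?_⟩
    have h2 : (1 - (s : ℝ)) ≠ 0 := fun h3 => h1 (by linarith)
    exact h (Sum.inr t) (mul_ne_zero h2 ht)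
  · rintro ⟨h1, h2⟩ t ht
    rcases (t : p.T ⊕ q.T) with t | t
    · have h3 : (s : ℝ) * Prot.prob x y p t ≠ 0 := ht
      exact h1 (left_ne_zero_of_mul h3) t (right_ne_zero_of_mul h3)
    · have h3 : (1 - (s : ℝ)) * Prot.prob x y q t ≠ 0 := ht
      exact h2 (fun h => left_ne_zero_of_mul h3 (by rw [h]; ring)) t (right_ne_zero_of_mul h3)

theorem cst_mapP (f : X → X1) (g : Y → Y1) (h : O1 → O) (p : Prot X1 Y1 O1) (x : X) (y : Y) :
    cst (mapP f g h p) x y = cst p (f x) (g y) := by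
  induction p with
  | out o => simp only [mapP, UBaux.cst_out]
  | alice a p q ihp ihq => simp only [mapP, cst_alice, ihp, ihq]
  | bob b p q ihp ihq => simp only [mapP, UBaux.cst_bob, ihp, ihq]
  | coin s p q ihp ihq => simp only [mapP, cst_coin, ihp, ihq]

theorem zer_mapP (f : X → X1) (g : Y → Y1) (h : O1 → O) (p : Prot X1 Y1 O1) (x : X) (y : Y) (o : O1) :
    zer p (f x) (g y) o → zer (mapP f g h p) x y (h o) := by
  induction p with
  | out o' =>
      intro hz t _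
      have := hz () (by simp [Prot.prob])
      show h o' = h o
      rw [← this]; rfl
  | alice a p q ihp ihq =>
      rw [zer_alice, mapP, zer_alice]
      exact fun hz => ⟨fun h0 => ihp (hz.1 h0), fun h1 => ihq (hz.2 h1)⟩
  | bob b p q ihp ihq =>
      rw [zer_bob, mapP, zer_bob]
      exact fun hz => ⟨fun h0 => ihp (hz.1 h0), fun h1 => ihq (hz.2 h1)⟩
  | coin s p q ihp ihq =>
      rw [zer_coin, mapP, zer_coin]
      exact fun hz => ⟨fun h0 => ihp (hz.1 h0), fun h1 => ihq (hz.2 h1)⟩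

theorem cst_comb (f1 : X → X1) (g1 : Y → Y1) (f2 : X → X2) (g2 : Y → Y2) (h : O1 → O2 → O) (q : Prot X2 Y2 O2)
    (p : Prot X1 Y1 O1) (x : X) (y : Y) :
    cst (comb f1 g1 f2 g2 h q p) x y = cst p (f1 x) (g1 y) + cst q (f2 x) (g2 y) := by
  induction p with
  | out o => simp only [comb, UBaux.cst_out, cst_mapP, zero_add]
  | alice a p q ihp ihq => simp only [comb, cst_alice, ihp, ihq]; ring
  | bob b p q ihp ihq => simp only [comb, UBaux.cst_bob, ihp, ihq]; ring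
  | coin s p q ihp ihq => simp only [comb, cst_coin, ihp, ihq]; ring

theorem zer_comb (f1 : X → X1) (g1 : Y → Y1) (f2 : X → X2) (g2 : Y → Y2) (h : O1 → O2 → O) (q : Prot X2 Y2 O2)
    (p : Prot X1 Y1 O1) (x : X) (y : Y) (o1 : O1) (o2 : O2) (hq : zer q (f2 x) (g2 y) o2) :
    zer p (f1 x) (g1 y) o1 → zer (comb f1 g1 f2 g2 h q p) x y (h o1 o2) := by
  induction p with
  | out o' =>
      intro hz
      have : o' = o1 := hz () (by simp [Prot.prob])
      subst this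
      exact zer_mapP _ _ _ _ _ _ _ hq
  | alice a p q ihp ihq =>
      rw [zer_alice, comb, zer_alice]
      exact fun hz => ⟨fun h0 => ihp (hz.1 h0), fun h1 => ihq (hz.2 h1)⟩
  | bob b p q ihp ihq =>
      rw [zer_bob, comb, zer_bob]
      exact fun hz => ⟨fun h0 => ihp (hz.1 h0), fun h1 => ihq (hz.2 h1)⟩
  | coin s p q ihp ihq =>
      rw [zer_coin, comb, zer_coin]
      exact fun hz => ⟨fun h0 => ihp (hz.1 h0), fun h1 => ihq (hz.2 h1)⟩

theorem cost_eq [Fintype X] [Fintype Y] (μ : X → Y → ℝ) (p : Prot X Y O) :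
    cost μ p = ∑ x, ∑ y, μ x y * cst p x y := by
  unfold cost cst
  exact sum_congr rfl fun x _ => sum_congr rfl fun y _ => by rw [mul_sum]

theorem split_sum [Fintype X] [Fintype Y] (μ : X → Y → ℝ) (h1 : ∑ x, ∑ y, μ x y = 1) (m n : ℕ)
    (c : (Fin m → X) → (Fin m → Y) → ℝ) (d : (Fin n → X) → (Fin n → Y) → ℝ) :
    ∑ x : Fin (m + n) → X, ∑ y : Fin (m + n) → Y, pwl μ (m + n) x y *
      (c (fun i => x (Fin.castAdd n i)) (fun i => y (Fin.castAdd n i)) +
        d (fun i => x (Fin.natAdd m i)) (fun i => y (Fin.natAdd m i))) =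
    (∑ x, ∑ y, pwl μ m x y * c x y) + ∑ x, ∑ y, pwl μ n x y * d x y := by
  classical
  have key : ∀ (x : (Fin m → X) × (Fin n → X)) (y : (Fin m → Y) × (Fin n → Y)),
      pwl μ (m + n) (Fin.appendEquiv m n x) (Fin.appendEquiv m n y) = pwl μ m x.1 y.1 * pwl μ n x.2 y.2 := by
    intro x y
    unfold pwl
    rw [Fin.prod_univ_add]
    simp [Fin.appendEquiv]
  rw [← (Fin.appendEquiv m n).sum_comp]
  have h2 : ∀ x : (Fin m → X) × (Fin n → X),
      ∑ y : Fin (m + n) → Y, pwl μ (m + n) (Fin.appendEquiv m n x) y *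
      (c (fun i => (Fin.appendEquiv m n x) (Fin.castAdd n i)) (fun i => y (Fin.castAdd n i)) +
        d (fun i => (Fin.appendEquiv m n x) (Fin.natAdd m i)) (fun i => y (Fin.natAdd m i))) =
      ∑ y1 : Fin m → Y, ∑ y2 : Fin n → Y, pwl μ m x.1 y1 * pwl μ n x.2 y2 * (c x.1 y1 + d x.2 y2) := by
    intro x
    rw [← (Fin.appendEquiv m n).sum_comp, Fintype.sum_prod_type]
    refine sum_congr rfl fun y1 _ => sum_congr rfl fun y2 _ => ?_
    rw [key]
    simp [Fin.appendEquiv]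
  simp only [h2]
  rw [Fintype.sum_prod_type]
  simp only
  have h3 : ∀ (x1 : Fin m → X) (x2 : Fin n → X),
      ∑ y1 : Fin m → Y, ∑ y2 : Fin n → Y, pwl μ m x1 y1 * pwl μ n x2 y2 * (c x1 y1 + d x2 y2) =
      (∑ y1, pwl μ m x1 y1 * c x1 y1) * (∑ y2, pwl μ n x2 y2) +
      (∑ y1, pwl μ m x1 y1) * (∑ y2, pwl μ n x2 y2 * d x2 y2) := by
    intro x1 x2
    rw [sum_mul_sum, sum_mul_sum, ← sum_add_distrib]
    refine sum_congr rfl fun y1 _ => ?_
    rw [← sum_add_distrib]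
    exact sum_congr rfl fun y2 _ => by ring
  simp only [h3]
  have h4 : ∑ x1 : Fin m → X, ∑ x2 : Fin n → X,
      ((∑ y1, pwl μ m x1 y1 * c x1 y1) * (∑ y2, pwl μ n x2 y2) +
      (∑ y1, pwl μ m x1 y1) * (∑ y2, pwl μ n x2 y2 * d x2 y2)) =
      (∑ x1, ∑ y1, pwl μ m x1 y1 * c x1 y1) * (∑ x2, ∑ y2, pwl μ n x2 y2) +
      (∑ x1, ∑ y1, pwl μ m x1 y1) * (∑ x2, ∑ y2, pwl μ n x2 y2 * d x2 y2) := by
    rw [sum_mul_sum, sum_mul_sum, ← sum_add_distrib]
    refine sum_congr rfl fun x1 _ => ?_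
    rw [← sum_add_distrib]
  rw [h4, UBaux.sum_pwl μ h1, UBaux.sum_pwl μ h1]
  ring

/-- subadditivity -/
theorem avgCC_add [Fintype X] [Fintype Y] (F : X → Y → O) (μ : X → Y → ℝ) (h0 : ∀ x y, 0 ≤ μ x y)
    (h1 : ∑ x, ∑ y, μ x y = 1) (hne : ∀ n, ∃ p : Prot (Fin n → X) (Fin n → Y) (Fin n → O), ZeroError (pw F n) p)
    (m n : ℕ) :
    avgCC (pw F (m + n)) (pwl μ (m + n)) ≤ avgCC (pw F m) (pwl μ m) + avgCC (pw F n) (pwl μ n) := by
  have key : ∀ (p : Prot (Fin m → X) (Fin m → Y) (Fin m → O)) (q : Prot (Fin n → X) (Fin n → Y) (Fin n → O)),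
      ZeroError (pw F m) p → ZeroError (pw F n) q →
      avgCC (pw F (m + n)) (pwl μ (m + n)) ≤ cost (pwl μ m) p + cost (pwl μ n) q := by
    intro p q hp hq
    have hz : ZeroError (pw F (m + n)) (comb (fun (x : Fin (m + n) → X) i => x (Fin.castAdd n i))
        (fun (y : Fin (m + n) → Y) i => y (Fin.castAdd n i)) (fun x i => x (Fin.natAdd m i))
        (fun y i => y (Fin.natAdd m i)) (fun o1 o2 => Fin.append o1 o2) q p) := by
      intro x y
      have h2 := zer_comb (fun (x : Fin (m + n) → X) i => x (Fin.castAdd n i))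
        (fun (y : Fin (m + n) → Y) i => y (Fin.castAdd n i)) (fun x i => x (Fin.natAdd m i))
        (fun y i => y (Fin.natAdd m i)) (fun o1 o2 => Fin.append o1 o2) q p x y _ _ (hq _ _) (hp _ _)
      have h3 : Fin.append (pw F m (fun i => x (Fin.castAdd n i)) (fun i => y (Fin.castAdd n i)))
          (pw F n (fun i => x (Fin.natAdd m i)) (fun i => y (Fin.natAdd m i))) = pw F (m + n) x y := by
        funext i
        refine Fin.addCases (fun j => ?_) (fun j => ?_) i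
        · simp [pw]
        · simp [pw]
      rw [h3] at h2
      exact h2
    refine (FINaux.avgCC_le t_FAC _ _ (FINaux.pwl_nonneg μ h0 _) _ hz).trans (le_of_eq ?_)
    rw [cost_eq, cost_eq, cost_eq, ← split_sum μ h1 m n (fun x y => cst p x y) (fun x y => cst q x y)]
    refine sum_congr rfl fun x _ => sum_congr rfl fun y _ => ?_
    rw [cst_comb]
  have hA : ∀ q : Prot (Fin n → X) (Fin n → Y) (Fin n → O), ZeroError (pw F n) q →
      avgCC (pw F (m + n)) (pwl μ (m + n)) - cost (pwl μ n) q ≤ avgCC (pw F m) (pwl μ m) := by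
    intro q hq
    apply le_csInf
    · obtain ⟨p, hp⟩ := hne m
      exact ⟨_, p, hp, rfl⟩
    · rintro _ ⟨p, hp, rfl⟩
      linarith [key p q hp hq]
  have hB : avgCC (pw F (m + n)) (pwl μ (m + n)) - avgCC (pw F m) (pwl μ m) ≤ avgCC (pw F n) (pwl μ n) := by
    apply le_csInf
    · obtain ⟨p, hp⟩ := hne n
      exact ⟨_, p, hp, rfl⟩
    · rintro _ ⟨q, hq, rfl⟩
      linarith [hA q hq]
  linarith

theorem avgCC_nonneg [Fintype X] [Fintype Y] (F : X → Y → O) (μ : X → Y → ℝ) (h0 : ∀ x y, 0 ≤ μ x y) :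
    0 ≤ avgCC F μ := by
  apply Real.sInf_nonneg
  rintro _ ⟨q, -, rfl⟩
  exact FINaux.cost_nonneg t_FAC μ h0 q

end LIMaux

open LIMaux in
/-- **Fekete**: the amortized zero-error communication is a limit -/
theorem tendsto_avgCC {X Y O : Type} [Fintype X] [Fintype Y] (F : X → Y → O) (μ : X → Y → ℝ)
    (h0 : ∀ x y, 0 ≤ μ x y) (h1 : ∑ x, ∑ y, μ x y = 1)
    (hne : ∀ n, ∃ p : Prot (Fin n → X) (Fin n → Y) (Fin n → O), ZeroError (pw F n) p) :
    ∃ L : ℝ, Tendsto (fun n : ℕ => avgCC (pw F n) (pwl μ n) / n) atTop (𝓝 L) := by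
  have hs : Subadditive (fun n : ℕ => avgCC (pw F n) (pwl μ n)) := fun m n => avgCC_add F μ h0 h1 hne m n
  refine ⟨hs.lim, hs.tendsto_lim ⟨0, ?_⟩⟩
  rintro _ ⟨n, rfl⟩
  exact div_nonneg (avgCC_nonneg _ _ (FINaux.pwl_nonneg μ h0 n)) (Nat.cast_nonneg _)

/-- the negated form of Q1 with the limit -/
theorem all_LIM : ∃ (m : ℕ) (F : Bits m → Bits m → Bool) (μ : Bits m → Bits m → ℝ), 1 ≤ m ∧
    (∀ x y, 0 ≤ μ x y) ∧ (∑ x, ∑ y, μ x y) = 1 ∧
    (∃ p : Prot (Bits m) (Bits m) Bool, ZeroError F p) ∧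
    (∀ n : ℕ, ∃ p : Prot (Fin n → Bits m) (Fin n → Bits m) (Fin n → Bool), ZeroError (pw F n) p) ∧
    ∃ L : ℝ, Tendsto (fun n : ℕ => avgCC (pw F n) (pwl μ n) / n) atTop (𝓝 L) ∧ L ≤ ICext F μ - 1 / 50 := by
  obtain ⟨m, F, μ, hm, h0, h1, hb, -⟩ := all_FIN
  have hne : ∀ n : ℕ, ∃ p : Prot (Fin n → Bits m) (Fin n → Bits m) (Fin n → Bool), ZeroError (pw F n) p := by
    intro n
    obtain ⟨p, hp⟩ := UBaux.exists_ze Pool.Agent.Q102.IC.t_ASK n (pw F n)
    exact ⟨p, fun x y => hp x y⟩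
  obtain ⟨L, hL⟩ := tendsto_avgCC F μ h0 h1 hne
  refine ⟨m, F, μ, hm, h0, h1, Pool.Agent.Q102.IC.t_ZE m F, hne, L, hL, ?_⟩
  have h2n : Tendsto (fun n : ℕ => 2 * n) atTop atTop := tendsto_id.const_mul_atTop' (by norm_num)
  have hT2 := hL.comp h2n
  have hlim : Tendsto (fun n : ℕ => (ICext F μ - 1 / 50) + 1 / (n : ℝ)) atTop (𝓝 ((ICext F μ - 1 / 50) + 0)) :=
    tendsto_const_nhds.add tendsto_one_div_atTop_nhds_zero_nat
  rw [add_zero] at hlim
  refine le_of_tendsto_of_tendsto hT2 hlim ?_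
  filter_upwards [eventually_ge_atTop 1] with n hn
  have hn' : (0 : ℝ) < n := by exact_mod_cast hn
  simp only [Function.comp]
  rw [div_le_iff₀ (by push_cast; positivity)]
  have h := hb n
  push_cast
  have h6 : (ICext F μ - 1 / 50 + 1 / (n : ℝ)) * (2 * n) = 2 * n * (ICext F μ - 1 / 50) + 2 := by
    field_simp
  rw [h6]
  exact h

end Pool.Agent.Q225.IC
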