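import Pool.Agent.Q225.IC.Def

/-!
# MP_ea601a_lc: statements of the lemmas (project IC)

Notation: `n = card P` addresses, `R = r + 1` symbols, `e = (a, i)` type, `b = bv e`, `w` good address, `v` other
address, `z` table of Bob. `ok w v z`: the law of the problem lives on `z w = 0`, `z v ≠ 0`, `v ≠ w`.
`bo w v z`: both table entries are `0` (outside of the support of the law, but the protocol still has to work).
A protocol is a family of rectangles: leaf `i` has probability `A i x * B i y` on the input `(x, y)`.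

Jobs prove `theorem t_XX (h.. : S_YY) .. : S_XX` in the namespace `Pool.Agent.Q225.IC`.
-/

open Finset

namespace Pool.Agent.Q225.IC

section defs

variable {P : Type} [Fintype P] [DecidableEq P] {r : ℕ}

/-- the support of the law: `z w = 0`, `z v ≠ 0` -/
def ok (w v : P) (z : Tb P r) : Prop := v ≠ w ∧ z w = 0 ∧ z v ≠ 0
/-- both entries are `0` -/
def bo (w v : P) (z : Tb P r) : Prop := v ≠ w ∧ z w = 0 ∧ z v = 0

instance (w v : P) (z : Tb P r) : Decidable (ok w v z) := inferInstanceAs (Decidable (_ ∧ _))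
instance (w v : P) (z : Tb P r) : Decidable (bo w v z) := inferInstanceAs (Decidable (_ ∧ _))

/-- `10 n (n-1) r (r+1)^(n-2)`: size of the support of the law -/
noncomputable def NS (P : Type) [Fintype P] (r : ℕ) : ℝ :=
  10 * Fintype.card P * (Fintype.card P - 1) * r * ((r : ℝ) + 1) ^ (Fintype.card P - 2)
/-- `(n-1) r (r+1)^(n-2)`: number of `(v, z)` with `ok c v z` -/
noncomputable def Nc (P : Type) [Fintype P] (r : ℕ) : ℝ :=
  (Fintype.card P - 1) * r * ((r : ℝ) + 1) ^ (Fintype.card P - 2)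
/-- `n (n-1) (r+1)^(n-2)`: number of `(w, v, z)` with `bo w v z` -/
noncomputable def Nb (P : Type) [Fintype P] (r : ℕ) : ℝ :=
  Fintype.card P * (Fintype.card P - 1) * ((r : ℝ) + 1) ^ (Fintype.card P - 2)

/-- mass of the inputs of type `e` with good address `c` at the leaf `(A, B)` -/
noncomputable def mm (A : XX P → ℝ) (B : YY P r → ℝ) (c : P) (e : Ed) : ℝ :=
  ∑ v : P, ∑ z : Tb P r, if ok c v z then A (xin e c v) * B (bv e, z) else 0
/-- mass of the inputs (Alice: type `e`, addresses `c`, `v`; Bob: `b`, both entries `0`) -/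
noncomputable def MM (A : XX P → ℝ) (B : YY P r → ℝ) (c : P) (e : Ed) (b : ZMod 5) : ℝ :=
  ∑ v : P, ∑ z : Tb P r, if bo c v z then A (xin e c v) * B (b, z) else 0
/-- mass of Alice's inputs of type `e` with the address `c` -/
noncomputable def FS (A : XX P → ℝ) (c : P) (e : Ed) : ℝ := ∑ v : P, if v ≠ c then A (xin e c v) else 0
/-- mass of Bob's inputs `(b, z)` with `z c = 0` -/
noncomputable def GS (B : YY P r → ℝ) (c : P) (b : ZMod 5) : ℝ := ∑ z : Tb P r, if z c = 0 then B (b, z) else 0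
/-- unnormalised relative entropy of `(v, z)` given the type `e` and the good address `c` -/
noncomputable def KL (A : XX P → ℝ) (B : YY P r → ℝ) (c : P) (e : Ed) : ℝ :=
  ∑ v : P, ∑ z : Tb P r, if ok c v z then
    (A (xin e c v) * B (bv e, z)) * Real.log (A (xin e c v) * B (bv e, z) * Nc P r / mm A B c e) else 0
/-- total mass of the leaf (times `NS`) -/
noncomputable def Tt (A : XX P → ℝ) (B : YY P r → ℝ) : ℝ := ∑ e : Ed, ∑ w : P, mm A B w e
/-- contribution of the leaf to the external information (times `NS * log 2`) -/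
noncomputable def Ll (A : XX P → ℝ) (B : YY P r → ℝ) : ℝ :=
  ∑ e : Ed, ∑ w : P, ∑ v : P, ∑ z : Tb P r, if ok w v z then
    (A (xin e w v) * B (bv e, z)) * Real.log (A (xin e w v) * B (bv e, z) * NS P r / Tt A B) else 0

/-- `u` is a nonnegative weight of total mass `m` on the pairs `(v,z)` with `ok c v z`, with relative entropy at
most `D` with respect to the uniform law on these pairs -/
def Sp (c : P) (u : P → Tb P r → ℝ) (m D : ℝ) : Prop :=
  (∀ v z, 0 ≤ u v z) ∧ (∀ v z, ¬ ok c v z → u v z = 0) ∧ (∑ v, ∑ z, u v z) = m ∧ 0 < m ∧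
    (∑ v, ∑ z, u v z * Real.log (u v z * Nc P r / m)) ≤ D * m

/-- a channel given by rectangles -/
def Ch {ι : Type} [Fintype ι] (A : ι → XX P → ℝ) (B : ι → YY P r → ℝ) : Prop :=
  (∀ i x, 0 ≤ A i x) ∧ (∀ i y, 0 ≤ B i y) ∧ ∀ x y, ∑ i, A i x * B i y = 1

end defs

/-! ## abstract inequalities -/

/-- LS, log-sum inequality. PROOF: `x log x ≥ x log t + x - t` for `x ≥ 0`, `t > 0`
(from `log s ≥ 1 - 1/s`), with `x = p i`, `t = w i * (∑ p)/(∑ w)`; terms with `p i = 0` vanish. -/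
def S_LS : Prop := ∀ (ι : Type) [Fintype ι] (p w : ι → ℝ), (∀ i, 0 ≤ p i) → (∀ i, 0 ≤ w i) →
  (∀ i, p i ≠ 0 → 0 < w i) →
  (∑ i, p i) * Real.log ((∑ i, p i) / (∑ i, w i)) ≤ ∑ i, p i * Real.log (p i / w i)

/-- SID, the path inequality of Blakley-Roy/Sidorenko for the path with three edges.
PROOF. `W v z = f v * g z * N v z`, `d v = ∑ z1, g z1 * N v z1`, `c z = ∑ v1, f v1 * N v1 z`, `S = ∑ W`,
`A = ∑ W d c`. If `W v z ≠ 0` then `d v, c z > 0`. Cauchy-Schwarz three times: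
`S ^ 2 ≤ (∑ W sqrt(d c)) (∑ W / sqrt(d c))`, `(∑ W sqrt(d c)) ^ 2 ≤ S * A`,
`(∑ W / sqrt(d c)) ^ 2 ≤ (∑ W / d) (∑ W / c) ≤ (∑ f) (∑ g)`. So `S ^ 4 ≤ S * A * (∑ f) (∑ g)`. -/
def S_SID : Prop := ∀ (V Z : Type) [Fintype V] [Fintype Z] (f : V → ℝ) (g : Z → ℝ) (N : V → Z → ℝ),
  (∀ v, 0 ≤ f v) → (∀ z, 0 ≤ g z) → (∀ v z, N v z = 0 ∨ N v z = 1) →
  (∑ v, ∑ z, f v * g z * N v z) ^ 3 ≤ (∑ v, f v) * (∑ z, g z) *
    ∑ v, ∑ z, f v * g z * N v z * ((∑ z1, g z1 * N v z1) * (∑ v1, f v1 * N v1 z))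

/-! ## counting -/

/-- CNT, numbers of tables. PROOF: `Fintype.piFinset` / product formula. -/
def S_CNT : Prop := ∀ (P : Type) [Fintype P] [DecidableEq P] (r : ℕ) (c v : P), v ≠ c →
  (univ.filter (fun z : Tb P r => z c = 0 ∧ z v ≠ 0)).card = r * (r + 1) ^ (Fintype.card P - 2) ∧
  (univ.filter (fun z : Tb P r => z c = 0 ∧ z v = 0)).card = (r + 1) ^ (Fintype.card P - 2) ∧
  (univ.filter (fun z : Tb P r => z c = 0)).card = (r + 1) ^ (Fintype.card P - 1)

/-- GEN, generating function of the number of zeros in `V`.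
PROOF: `Finset.prod_univ_sum` (product over the addresses of the sum over the symbols). -/
def S_GEN : Prop := ∀ (P : Type) [Fintype P] [DecidableEq P] (r : ℕ) (c : P) (V : Finset P) (x : ℝ), c ∉ V →
  (∑ z : Tb P r, if z c = 0 then ∏ v ∈ V, (if z v = 0 then x else 1) else 0) =
    ((r : ℝ) + 1) ^ (Fintype.card P - 1) * ((x + r) / (r + 1)) ^ V.card

open Classical in
/-- RECT, one-rectangles. Let every table of the rectangle have a zero at one of the two addresses of every input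
of Alice of the rectangle. Then there is an address `c` such that only few inputs of the support which lie in the
rectangle have a good address different from `c`.
PROOF. `E` = the set of pairs `{s,t}`, `s ≠ t`, which are the address pair of some `x` with `A x`. For `y = (b,z)`
with `B y`, `z` vanishes at one end of each pair of `E`. `Γ(v)` = neighbours of `v` in `E`, `d(v) = |Γ(v)|`.
Choose `c` with `c ∈ {s,t}` for all pairs of `E` if there is such a `c`, otherwise arbitrary. Fix `e` and `v` and count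
the `(w,z)` (all `w` are in `Γ(v)`, `z = 0` on `Γ(v)` because `z v ≠ 0`).
If `d(v) ≥ 2`: at most `d(v) * r * R^(n-1-d(v)) ≤ (2/R) * r * R^(n-2)` because `d ≤ 2 R^(d-2)`.
If `d(v) = 1`, `Γ(v) = {u}`: at most `r R^(n-2)`; and if some pair `{s,t}` of `E` does not contain `u` (then it does not
contain `v` either), at most `2 r R^(n-3)`, because `z s = 0` or `z t = 0`.
First case (`c` lies on all pairs): `w ≠ c` and `{w,v} ∈ E` imply `v = c`, so the total is at most `r R^(n-2)`.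
Second case: for each of the `n` values of `v` at most `(2/R) r R^(n-2)`. Use `R ≤ n` in the first case. -/
def S_RECT : Prop := ∀ (P : Type) [Fintype P] [DecidableEq P] (r : ℕ) (A : XX P → Prop) (B : YY P r → Prop),
  1 ≤ r → r + 1 ≤ Fintype.card P → (∀ x y, A x → B y → FF x y = true) →
  ∃ c : P, ∀ e : Ed,
    (r + 1) * (univ.filter (fun t : P × P × Tb P r =>
      ok t.1 t.2.1 t.2.2 ∧ t.1 ≠ c ∧ A (xin e t.1 t.2.1) ∧ B (bv e, t.2.2))).card ≤
    2 * Fintype.card P * (r * (r + 1) ^ (Fintype.card P - 2))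

/-! ## the leaf inequality -/

/-- LEAF. PROOF. If the output `o` is `false` then `A x * B y = 0` on the support (there `FF = true`), everything is `0`.
If `o = true` take `c` from RECT for `A x ≠ 0`, `B y ≠ 0`. Split the sum `Ll` into the part `w = c` and the part `w ≠ c`.
Part `w = c`, type `e`: `P log (P NS/Tt) = P log (P Nc/mm) + P log (mm NS/(Nc Tt))` for `P = A * B ≠ 0`, and
`NS / Nc = 10 n`, so it is `KL e + mm e * (log n + log (10 * mm e/Tt))`.
Part `w ≠ c`: let `Q` be the set of the support inputs with `w ≠ c`, `P ≠ 0`; LS with `w = 1` on `Q` gives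
`∑ P log P ≥ bad * log (bad/|Q|)`, `bad = Tt - ∑ mm e`; so the part is at least
`bad * log (bad/Tt) + bad * log (NS/|Q|)` and `NS/|Q| ≥ R (n-1)/2 ≥ R n/4` by RECT (ten types `e`).
(`Tt = ∑ e, ∑ w, mm A B w e`, so `bad = ∑ e, ∑ w ≠ c, mm A B w e`.) If `Tt = 0` all terms are `0`. -/
def S_LEAF : Prop := ∀ (P : Type) [Fintype P] [DecidableEq P] (r : ℕ) (A : XX P → ℝ) (B : YY P r → ℝ),
  1 ≤ r → r + 1 ≤ Fintype.card P → (∀ x, 0 ≤ A x) → (∀ y, 0 ≤ B y) →
  (∃ o : Bool, ∀ x y, A x ≠ 0 → B y ≠ 0 → FF x y = o) →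
  ∃ c : P, 0 ≤ Tt A B - ∑ e, mm A B c e ∧
    Tt A B * Real.log (Fintype.card P) + (Tt A B - ∑ e, mm A B c e) * Real.log (((r : ℝ) + 1) / 4)
    + ((Tt A B - ∑ e, mm A B c e) * Real.log ((Tt A B - ∑ e, mm A B c e) / Tt A B)
      + ∑ e, mm A B c e * Real.log (10 * mm A B c e / Tt A B)) + ∑ e, KL A B c e ≤ Ll A B

/-- KL0: relative entropies are nonnegative. PROOF: LS with `w = mm / Nc` on the `Nc` pairs with `ok c v z`
(their number is `Nc` by CNT). -/
def S_KL0 : Prop := ∀ (P : Type) [Fintype P] [DecidableEq P] (r : ℕ) (A : XX P → ℝ) (B : YY P r → ℝ) (c : P) (e : Ed),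
  1 ≤ r → 2 ≤ Fintype.card P → (∀ x, 0 ≤ A x) → (∀ y, 0 ≤ B y) → 0 ≤ KL A B c e

/-! ## spread weights -/

/-- T1. PROOF: `θ = δ/2`, `g z = -θ * #{v ∈ V | z v = 0}`. LS with the weights `w (v,z) = exp (g z) * m/Nc` on the pairs
with `ok c v z` gives `∑ u * g ≤ ∑ u log (u Nc/m) + m log (∑_(ok) exp (g z)/Nc)`. The left side is at least
`- θ * |V| * (1 - δ/2)/R * m`. By GEN with `x = exp (-θ)`: `∑_(ok) exp (g z) ≤ (n-1) R^(n-1) ((x + r)/R)^|V|`, so the
last logarithm is at most `log (R/r) + |V| log (1 - (1-x)/R) ≤ 1 - |V| (1 - x)/R` (`R/r ≤ 2`). Hence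
`|V| ((1 - exp (-θ)) - θ (1 - δ/2))/R ≤ D + 1`, and `1 - exp (-θ) ≥ θ - θ^2/2` gives the claim. -/
def S_T1 : Prop := ∀ (P : Type) [Fintype P] [DecidableEq P] (r : ℕ) (c : P) (u : P → Tb P r → ℝ) (m D δ : ℝ)
  (V : Finset P), 1 ≤ r → 2 ≤ Fintype.card P → Sp c u m D → 0 < δ → δ ≤ 1 → c ∉ V →
  (∀ v ∈ V, (∑ v1, ∑ z : Tb P r, if z v = 0 then u v1 z else 0) ≤ (1 - δ / 2) / (r + 1) * m) →
  (V.card : ℝ) * δ ^ 2 / (8 * (r + 1)) ≤ D + 1

/-- T2. PROOF: `L = log ((n-1)/K) > 0`; LS with the weights `exp (L * [v ∈ V]) * m/Nc` on the pairs with `ok c v z`: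
`L * ∑_(v ∈ V) ∑ u ≤ ∑ u log (u Nc/m) + m log ((1/Nc) ∑_(ok) exp (L [v ∈ V]))`, for every `v ≠ c` there are
`r R^(n-2)` tables (CNT), so the last logarithm is at most `log (1 + exp L * K/(n-1)) = log 2 ≤ 1`. -/
def S_T2 : Prop := ∀ (P : Type) [Fintype P] [DecidableEq P] (r : ℕ) (c : P) (u : P → Tb P r → ℝ) (m D K : ℝ)
  (V : Finset P), 1 ≤ r → 2 ≤ Fintype.card P → Sp c u m D → (V.card : ℝ) ≤ K → 1 ≤ K →
  K < (Fintype.card P : ℝ) - 1 →
  (∑ v ∈ V, ∑ z, u v z) * Real.log (((Fintype.card P : ℝ) - 1) / K) ≤ (D + 1) * m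

/-- TT. PROOF: `V = {v ≠ c : ∑ v1 z, [z v = 0] u' v1 z < (1 - δ/2)/R m'}`; `|V| ≤ K = 8 R (D+1)/δ^2` by T1 (for `u'`), so
`∑_(v ∈ V) ∑ u ≤ δ/2 * m` by T2 (for `u`) if `n` is so large that `(D+1)/log ((n-1)/K) ≤ δ/2`. The sum of the claim is
`∑ v ≠ c, (∑ z1, u v z1) * (∑ z, [z v = 0, z c = 0] ∑ v1, u' v1 z)`, `u'` lives on `z c = 0`, and for `v ∉ V` the second
factor is at least `(1 - δ/2)/R m'`. So it is at least `(1 - δ/2) m * (1 - δ/2)/R m'`. -/
def S_TT : Prop := ∀ (r : ℕ) (D δ : ℝ), 1 ≤ r → 0 ≤ D → 0 < δ → δ ≤ 1 → ∃ n0 : ℕ,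
  ∀ (P : Type) [Fintype P] [DecidableEq P] (c : P) (u u' : P → Tb P r → ℝ) (m m' : ℝ), n0 ≤ Fintype.card P →
  Sp c u m D → Sp c u' m' D →
  (1 - δ) / (r + 1) * (m * m') ≤
    ∑ v : P, ∑ z : Tb P r, if bo c v z then (∑ z1, u v z1) * (∑ v1, u' v1 z) else 0

/-- B. PROOF: `f v = A (xin e c v)` for `v ≠ c` (else `0`), `g z = B (bv e, z)` for `z c = 0` (else `0`),
`N v z = [z v ≠ 0]`, `u v z = f v * g z * N v z`: `Sp c u m D`, `m = mm A B c e`. The products of the marginals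
`∑ v z, (∑ z1, u v z1) (∑ v1, u v1 z) = m^2` split into `[z v ≠ 0]` and `[z v = 0]`; by SID the first part is at least
`m^3/(F G)`, `F G = ∑ f * ∑ g = m + M`, `M = MM A B c e (bv e)`; by TT the second part is at least `(1-δ)/R m^2`. So
`m/(m + M) ≤ 1 - (1-δ)/R`, hence `M ≥ (m + M) (1-δ)/R ≥ m (1-δ)/R`. -/
def S_B : Prop := ∀ (r : ℕ) (D δ : ℝ), 1 ≤ r → 0 ≤ D → 0 < δ → δ ≤ 1 → ∃ n0 : ℕ,
  ∀ (P : Type) [Fintype P] [DecidableEq P] (A : XX P → ℝ) (B : YY P r → ℝ) (c : P) (e : Ed),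
  n0 ≤ Fintype.card P → (∀ x, 0 ≤ A x) → (∀ y, 0 ≤ B y) → 0 < mm A B c e → KL A B c e ≤ D * mm A B c e →
  (1 - δ) / (r + 1) * mm A B c e ≤ MM A B c e (bv e)

/-- C. PROOF: `f v = A (xin e c v)`, `F = FS A c e`, `G = GS B c (bv e)`, `u v z = f v * B (bv e, z)` on `ok c v z`,
`m = mm A B c e`; `f v * G ≥ ∑ z, u v z` and `F * G = m + MM A B c e (bv e) ≤ 2 m`, so `f v/F ≥ (∑ z, u v z)/(2 m)`.
In the same way (for `e'`) `B (bv e', z)/G' ≥ (∑ v1, u' v1 z)/(2 m')`, `G' = GS B c (bv e')`. TT with `δ = 1/2` gives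
`MM A B c e (bv e') ≥ F G' (1/4) (1/2)/R`. -/
def S_C : Prop := ∀ (r : ℕ) (D : ℝ), 1 ≤ r → 0 ≤ D → ∃ n0 : ℕ,
  ∀ (P : Type) [Fintype P] [DecidableEq P] (A : XX P → ℝ) (B : YY P r → ℝ) (c : P) (e e' : Ed),
  n0 ≤ Fintype.card P → (∀ x, 0 ≤ A x) → (∀ y, 0 ≤ B y) → 0 < mm A B c e → 0 < mm A B c e' →
  KL A B c e ≤ D * mm A B c e → KL A B c e' ≤ D * mm A B c e' →
  MM A B c e (bv e) ≤ mm A B c e → MM A B c e' (bv e') ≤ mm A B c e' →
  FS A c e * GS B c (bv e') ≤ 8 * ((r : ℝ) + 1) * MM A B c e (bv e')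

/-! ## sums over the leaves -/

/-- SUM, sums over the leaves (each input has total probability one). PROOF of (1): for each `(w,v,z)` with `ok w v z`
the sum over the leaves is one, number of these: `n (n-1) r R^(n-2) = NS/10` (CNT). (2): rewrite
`∑ i, MM (c i) = ∑ w, ∑ i with c i = w, ...` and drop the condition `c i = w`; number `Nb`. (3): for
`x = xin e w v = xin (flp e) v w` and `z` with `z w = z v = 0` the leaves with `c i = w` (second sum) and `c i = v`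
(first sum) are different. (4) as (2), number of `(w,v,z)` with `v ≠ w`, `z w = 0` is `n (n-1) R^(n-1) = R Nb`. -/
def S_SUM : Prop := ∀ (P : Type) [Fintype P] [DecidableEq P] (r : ℕ) (ι : Type) [Fintype ι] (A : ι → XX P → ℝ)
  (B : ι → YY P r → ℝ) (c : ι → P), 1 ≤ r → 2 ≤ Fintype.card P → Ch A B →
  (∀ e, ∑ i, ∑ w, mm (A i) (B i) w e = NS P r / 10) ∧
  (∀ e b, ∑ i, MM (A i) (B i) (c i) e b ≤ Nb P r) ∧
  (∀ e, ∑ i, MM (A i) (B i) (c i) (flp e) (bv (flp e)) + ∑ i, MM (A i) (B i) (c i) e (bv (flp e)) ≤ Nb P r) ∧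
  (∀ e b, ∑ i, FS (A i) (c i) e * GS (B i) (c i) b ≤ ((r : ℝ) + 1) * Nb P r)

/-- OV, overlap of two conflicting types on the good leaves `G`.
PROOF: `mm e ≤ FS e * GS (bv e)` and `mm e' ≤ FS e' * GS (bv e')`, so
`min (mm e) (mm e') ≤ sqrt (mm e * mm e') ≤ sqrt (FS e * GS (bv e')) * sqrt (FS e' * GS (bv e))` (cut and paste).
Cauchy-Schwarz over the leaves of `G`, the hypothesis and SUM (4). -/
def S_OV : Prop := ∀ (P : Type) [Fintype P] [DecidableEq P] (r : ℕ) (ι : Type) [Fintype ι] (A : ι → XX P → ℝ)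
  (B : ι → YY P r → ℝ) (c : ι → P) (e e' : Ed) (G : Finset ι) (η : ℝ), 1 ≤ r → 2 ≤ Fintype.card P → Ch A B →
  (∀ i ∈ G, FS (A i) (c i) e * GS (B i) (c i) (bv e') ≤ 8 * ((r : ℝ) + 1) * MM (A i) (B i) (c i) e (bv e')) →
  0 ≤ η → ∑ i, MM (A i) (B i) (c i) e (bv e') ≤ η * Nb P r →
  ∑ i ∈ G, min (mm (A i) (B i) (c i) e) (mm (A i) (B i) (c i) e') ≤ ((r : ℝ) + 1) * Nb P r * Real.sqrt (8 * η)

/-- ENT, entropy of the type at a leaf. `tau m` is the total overlap of the conflicting types: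
`e`, `e'` conflict if `bv e' = bv (flp e)`.
PROOF. `I` = a set of types without conflicts (`bv e' ≠ bv (flp e)` for all `e, e' ∈ I`) of maximal mass `∑_(I) m`.
`|I| ≤ 4`: at most one type for each `a`; five types would be `i : Z_5 → Bool` with `i (a+1) = !(i a)`
(decide over the 32 functions), impossible. For `e ∉ I` the exchange of `e` with its conflicting elements of `I`
gives `m e ≤ ∑_(e' ∈ I conflicting) m e'`, so `m e ≤ ∑ min (m e) (m e')`; hence `t = ∑_(e ∉ I) m e ≤ tau`.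
LS on `I` (weights `T/10` each): `∑_(I) m e log (10 m e/T) ≥ M log (10 M/(4 T))`, `M = T - bad - t`, and
`M log (M/T) ≥ -(bad + t)`, `log (5/2) ≤ 1`; LS on the complement: `≥ t log (t/T) ≥ - sqrt (T t)` (`x log x ≥ - sqrt x`
on `[0,1]`), and `bad log (bad/T) ≥ - sqrt (T bad)`. -/
def S_ENT : Prop := ∀ (m : Ed → ℝ) (bad T : ℝ), (∀ e, 0 ≤ m e) → 0 ≤ bad → T = bad + ∑ e, m e →
  T * Real.log (5 / 2)
    - 2 * (bad + ∑ e, ∑ e', if bv e' = bv (flp e) then min (m e) (m e') else 0)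
    - Real.sqrt (T * bad)
    - Real.sqrt (T * ∑ e, ∑ e', if bv e' = bv (flp e) then min (m e) (m e') else 0)
  ≤ bad * Real.log (bad / T) + ∑ e, m e * Real.log (10 * m e / T)

/-! ## the lower bound for channels -/

/-- GOOD: what a channel with little information looks like: few masses at the wrong address, and small
overlaps of conflicting types. `c i` is the address of LEAF.
PROOF. Let `N = NS P r = 10 r Nb`, `bad i = Tt - ∑ e, mm`, `R = r + 1`, `D = 10^16`, `δ = 10^(-13)`, `Λ = log (R/4) ≥ 10^16`.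
`∑ i, Tt i = N` by SUM (1). Sum the leaf inequality over `i`; as `bad log (bad/T) ≥ -T` and
`∑ m e log (10 m e/T) ≥ -T` (LS) the hypothesis gives `∑ bad * Λ + ∑ KL ≤ 3 N`, all terms nonnegative (KL0), so
`∑ bad ≤ 3 N/Λ`, and for each type `e` the leaves with `KL e > D mm e` have `∑ mm e ≤ 3 N/D`.
(a) For each `e`: `∑ mm e ≥ N/10 - ∑ bad` (SUM (1)), and B on the leaves with `0 < mm e`, `KL e ≤ D mm e`
(for `n ≥ n0`) gives `∑ MM e (bv e) ≥ (1-δ)/R (N/10 - 3 N/Λ - 3 N/D) ≥ (1 - η) Nb` with `η = 2 * 10^(-13)`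
(note `N/(10 R) = (r/R) Nb`, and `R ≥ 4 exp (10^16) ≥ 10^16`).
(b) SUM (3) for `e`: `∑ MM e (bv (flp e)) ≤ η Nb` (use (a) for the type `flp e`).
(c) Conflict `bv e' = bv (flp e)`: leaves with `mm e = 0` or `mm e' = 0` have `min = 0`. Leaves with `KL e > D mm e` or
`MM e (bv e) > mm e` or the same for `e'`: `∑ min ≤ 2 (3 N/D + Nb)` (SUM (2), and `Nb = N/(10 r) ≤ 10^(-12) N`).
All other leaves are good by C, and OV gives `∑ min ≤ R Nb sqrt (8 η) ≤ (2 N/10) * 1.3 * 10^(-6)`.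
So `∑ i, min ≤ 3 * 10^(-7) N` for each conflicting pair, and there are at most 100 pairs `(e, e')`. -/
def S_GOOD : Prop := ∀ r : ℕ, (10 : ℝ) ^ 16 ≤ Real.log (((r : ℝ) + 1) / 4) → ∃ n0 : ℕ,
  ∀ (P : Type) [Fintype P] [DecidableEq P] (ι : Type) [Fintype ι] (A : ι → XX P → ℝ) (B : ι → YY P r → ℝ)
  (c : ι → P), n0 ≤ Fintype.card P → Ch A B →
  (∀ i, 0 ≤ Tt (A i) (B i) - ∑ e, mm (A i) (B i) (c i) e) →
  (∑ i, ((Tt (A i) (B i) - ∑ e, mm (A i) (B i) (c i) e) * Real.log (((r : ℝ) + 1) / 4)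
    + ((Tt (A i) (B i) - ∑ e, mm (A i) (B i) (c i) e) *
        Real.log ((Tt (A i) (B i) - ∑ e, mm (A i) (B i) (c i) e) / Tt (A i) (B i))
      + ∑ e, mm (A i) (B i) (c i) e * Real.log (10 * mm (A i) (B i) (c i) e / Tt (A i) (B i)))
    + ∑ e, KL (A i) (B i) (c i) e) ≤ NS P r) →
  ∑ i, (Tt (A i) (B i) - ∑ e, mm (A i) (B i) (c i) e) ≤ NS P r / 1000 ∧
  ∑ i, (∑ e, ∑ e', if bv e' = bv (flp e) then
    min (mm (A i) (B i) (c i) e) (mm (A i) (B i) (c i) e') else 0) ≤ NS P r / 1000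

/-- CH, the lower bound for channels. PROOF: choose `r` with `log ((r+1)/4) ≥ 10^16`, then `k` with `2^k ≥ n0, r+1` (GOOD).
Suppose `∑ Ll < NS (k log 2 + 0.82)`. LEAF gives the `c i`; `card P = 2^k`, `∑ Tt = NS` (SUM (1)), so the hypothesis of
GOOD holds (`0.82 ≤ 1`). By ENT at each leaf and Cauchy-Schwarz (`∑ sqrt (T_i b_i) ≤ sqrt (∑ T_i ∑ b_i)`), KL0 and
`log ((r+1)/4) ≥ 0`: `∑ Ll ≥ NS (k log 2 + log (5/2) - 4/1000 - 2 sqrt (1/1000)) ≥ NS (k log 2 + 0.82)`. -/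
def S_CH : Prop := ∃ r k : ℕ, 1 ≤ r ∧ 1 ≤ k ∧ ∀ (ι : Type) [Fintype ι] (A : ι → XX (Bits k) → ℝ)
  (B : ι → YY (Bits k) r → ℝ), Ch A B → (∀ i, ∃ o : Bool, ∀ x y, A i x ≠ 0 → B i y ≠ 0 → FF x y = o) →
  NS (Bits k) r * (k * Real.log 2 + 0.82) ≤ ∑ i, Ll (A i) (B i)

/-! ## protocols -/

/-- FAC: the probability of a transcript is a product, and the probabilities sum to one. PROOF: induction on `p`. -/
def S_FAC : Prop := ∀ (X Y O : Type) (p : Prot X Y O), (∃ (α : p.T → X → ℝ) (β : p.T → Y → ℝ),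
  (∀ t x, 0 ≤ α t x) ∧ (∀ t y, 0 ≤ β t y) ∧ ∀ x y t, p.prob x y t = α t x * β t y) ∧
  ∀ x y, ∑ t : p.T, p.prob x y t = 1

/-- the law of the gadget after the encodings `eX`, `eY` -/
noncomputable def lawE {k r m : ℕ} (eX : XX (Bits k) → Bits m) (eY : YY (Bits k) r → Bits m) (s t : Bits m) : ℝ :=
  (∑ e : Ed, ∑ w : Bits k, ∑ v : Bits k, ∑ z : Tb (Bits k) r,
    if ok w v z ∧ eX (xin e w v) = s ∧ eY (bv e, z) = t then (1 : ℝ) else 0) / NS (Bits k) r

/-- LAW: it is a probability distribution. PROOF: exchange the sums; the number of quadruples is `NS` (CNT). -/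
def S_LAW : Prop := ∀ (k r m : ℕ) (eX : XX (Bits k) → Bits m) (eY : YY (Bits k) r → Bits m), 1 ≤ r → 1 ≤ k →
  (∀ s t, 0 ≤ lawE eX eY s t) ∧ ∑ s, ∑ t, lawE eX eY s t = 1

/-- LIFT: the information of a protocol for the encoded inputs.
PROOF: `∑ s t, lawE s t * h s t = (1/NS) ∑_(ok) h (eX (xin e w v)) (eY (bv e, z))`; the marginal of the transcript `τ` is
`Tt/NS` for `A = fun x => α τ (eX x)`, `B = fun y => β τ (eY y)`; `logb 2 = log/log 2`. -/
def S_LIFT : Prop := ∀ (k r m : ℕ) (eX : XX (Bits k) → Bits m) (eY : YY (Bits k) r → Bits m)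
  (p : Prot (Bits m) (Bits m) Bool) (α : p.T → Bits m → ℝ) (β : p.T → Bits m → ℝ), 1 ≤ r → 1 ≤ k →
  (∀ x y t, p.prob x y t = α t x * β t y) →
  info (lawE eX eY) p = (∑ t : p.T, Ll (fun x => α t (eX x)) (fun y => β t (eY y))) / (NS (Bits k) r * Real.log 2)

/-- expected number of bits on the input `(x,y)` -/
noncomputable def cst {X Y O : Type} (p : Prot X Y O) (x : X) (y : Y) : ℝ :=
  ∑ t : p.T, p.prob x y t * (p.len t : ℝ)
/-- no error on the input `(x,y)` -/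
def zer {X Y O : Type} (p : Prot X Y O) (x : X) (y : Y) (o : O) : Prop :=
  ∀ t : p.T, p.prob x y t ≠ 0 → p.res t = o

/-- ASK: Alice (Bob) can send `k` bits which are a function of the input, after which the protocol depends on them.
PROOF: induction on `k`; nodes with probabilities `0`, `1`. -/
def S_ASK : Prop := ∀ (X Y O : Type) (k : ℕ),
  (∀ (f : X → Bits k) (q : Bits k → Prot X Y O), ∃ p : Prot X Y O, ∀ x y,
    cst p x y = k + cst (q (f x)) x y ∧ ∀ o, (zer (q (f x)) x y o → zer p x y o)) ∧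
  (∀ (f : Y → Bits k) (q : Bits k → Prot X Y O), ∃ p : Prot X Y O, ∀ x y,
    cst p x y = k + cst (q (f y)) x y ∧ ∀ o, (zer (q (f y)) x y o → zer p x y o))

/-- UB, the protocol for `2 T` copies. `dX`, `dY` decode the inputs.
PROOF. For the pairs of copies `(2j, 2j+1)`: Bob computes `c_j = b_(2j) + 2 b_(2j+1) ∈ Z_5` and sends the vector `c` with
`K = Nat.clog 2 (5^T)` bits (ASK; `(Fin T → ZMod 5)` embeds into `Bits K`). Alice knows her `a`'s; the map
`(i, i') ↦ (a + i) + 2 (a' + i')`, `i, i' ∈ {0,1}`, is injective (`decide`), she takes the `(i, i')` with this value (anything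
if there is none) and sends the addresses `p_i`, `2 T k` bits. Bob sends one bit: are all the table entries at these
addresses `0`? If yes the output is `true` for all copies (correct, because the address is one of the two of Alice).
If not, Alice sends her whole input (`ASK`, any number of bits) and Bob the output. The number of bits is
`K + 2 T k + 1` unless the last case happens, and this does not happen on the support of `pwl μ (2 T)`, because there
`b = a + i` with `z (p_i) = 0` in every copy and Alice finds the right `i`. -/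
def S_UB : Prop := ∀ (k r : ℕ) (S1 S2 : Type) [Fintype S1] [Fintype S2] (dX : S1 → XX (Bits k))
  (dY : S2 → YY (Bits k) r) (μ : S1 → S2 → ℝ), (∀ s t, 0 ≤ μ s t) → ∑ s, ∑ t, μ s t = 1 →
  (∀ s t, μ s t ≠ 0 → ∃ (e : Ed) (w v : Bits k) (z : Tb (Bits k) r), ok w v z ∧ dX s = xin e w v ∧ dY t = (bv e, z)) →
  ∀ T : ℕ, ∃ p : Prot (Fin (2 * T) → S1) (Fin (2 * T) → S2) (Fin (2 * T) → Bool),
    ZeroError (pw (fun s t => FF (dX s) (dY t)) (2 * T)) p ∧
    cost (pwl μ (2 * T)) p ≤ Nat.clog 2 (5 ^ T) + 2 * T * k + 1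

/-- ZE: there is a zero-error protocol. PROOF: ASK (Alice sends her input, Bob the value). -/
def S_ZE : Prop := ∀ (m : ℕ) (F : Bits m → Bits m → Bool), ∃ p : Prot (Bits m) (Bits m) Bool, ZeroError F p

end Pool.Agent.Q225.IC
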